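import Pool.Agent.N525.VR.Stm

set_option autoImplicit false

/-! Part C1: decomposition and contraction of cycles mod 2, general `d`. -/

namespace Pool.Agent.N525.VR
variable {V : Type} [Fintype V] [DecidableEq V] {d : ℕ}


theorem C1_isCycle_sdiff {C A : Finset (Finset V)} (hC : IsCycle d C) (hA : IsCycle d A)
    (hAC : A ⊆ C) : IsCycle d (C \ A) := by
  refine ⟨fun F hF => hC.1 F (Finset.mem_sdiff.1 hF).1, fun t ht => ?_⟩
  have h1 := hC.2 t ht
  have h2 := hA.2 t ht
  have h3 : ((C \ A).filter (fun F => t ⊆ F)).card + (A.filter (fun F => t ⊆ F)).card =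
      (C.filter (fun F => t ⊆ F)).card := by
    rw [← Finset.card_union_of_disjoint, ← Finset.filter_union, Finset.sdiff_union_of_subset hAC]
    exact Finset.disjoint_filter_filter Finset.sdiff_disjoint
  rw [← h3] at h1
  exact (Nat.even_add.1 h1).2 h2

theorem C1_exists_decomp (C : Finset (Finset V)) (h : IsCycle d C) :
    ∃ Z : Finset (Finset (Finset V)), (∀ A ∈ Z, MinCycle d A) ∧ (∀ A ∈ Z, A ⊆ C) ∧
      (∀ F ∈ C, ∃ A ∈ Z, F ∈ A) ∧ (∀ A ∈ Z, ∀ B ∈ Z, A ≠ B → Disjoint A B) := by
  classical
  induction hn : C.card using Nat.strong_induction_on generalizing C with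
  | _ n ih =>
  rcases C.eq_empty_or_nonempty with rfl | hne
  · exact ⟨∅, by simp, by simp, by simp, by simp⟩
  · have hS : (C.powerset.filter (fun A => A.Nonempty ∧ IsCycle d A)).Nonempty :=
      ⟨C, by simp [hne, h]⟩
    obtain ⟨A, hA, hmin⟩ := Finset.exists_min_image _ Finset.card hS
    rw [Finset.mem_filter, Finset.mem_powerset] at hA
    obtain ⟨hAC, hAne, hAcyc⟩ := hA
    have hAmin : MinCycle d A := by
      refine ⟨hAcyc, hAne, fun Z hZ hZne hZc => ?_⟩
      apply Finset.eq_of_subset_of_card_le hZ
      apply hmin
      rw [Finset.mem_filter, Finset.mem_powerset]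
      exact ⟨hZ.trans hAC, hZne, hZc⟩
    have hlt : (C \ A).card < n := by
      rw [← hn]
      apply Finset.card_lt_card
      refine ⟨Finset.sdiff_subset, fun hsub => ?_⟩
      obtain ⟨F, hF⟩ := hAne
      exact (Finset.mem_sdiff.1 (hsub (hAC hF))).2 hF
    obtain ⟨Z, h1, h2, h3, h4⟩ := ih _ hlt (C \ A) (C1_isCycle_sdiff h hAcyc hAC) rfl
    refine ⟨insert A Z, ?_, ?_, ?_, ?_⟩
    · intro B hB
      rcases Finset.mem_insert.1 hB with rfl | hB
      · exact hAmin
      · exact h1 B hB
    · intro B hB
      rcases Finset.mem_insert.1 hB with rfl | hB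
      · exact hAC
      · exact (h2 B hB).trans Finset.sdiff_subset
    · intro F hF
      by_cases hFA : F ∈ A
      · exact ⟨A, Finset.mem_insert_self _ _, hFA⟩
      · obtain ⟨B, hB, hFB⟩ := h3 F (Finset.mem_sdiff.2 ⟨hF, hFA⟩)
        exact ⟨B, Finset.mem_insert_of_mem hB, hFB⟩
    · intro B hB B' hB' hne'
      rcases Finset.mem_insert.1 hB with h5 | h5
      · rcases Finset.mem_insert.1 hB' with h6 | h6
        · exact absurd (h5.trans h6.symm) hne'
        · rw [h5]
          exact (Finset.disjoint_sdiff (s := A) (t := C)).mono_right (h2 B' h6)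
      · rcases Finset.mem_insert.1 hB' with h6 | h6
        · rw [h6]
          exact ((Finset.disjoint_sdiff (s := A) (t := C)).mono_right (h2 B h5)).symm
        · exact h4 B h5 B' h6 hne'



omit [Fintype V] in
theorem C1_con_not_mem' (u v : V) (huv : u ≠ v) (F : Finset V) : v ∉ con u v F := by
  unfold con
  split_ifs with h
  · simp [huv.symm]
  · exact h

omit [Fintype V] in
theorem C1_con_card' (u v : V) (F : Finset V) (hF : F.card = d) (h : ¬ (u ∈ F ∧ v ∈ F)) :
    (con u v F).card = d := by
  unfold con
  split_ifs with hv
  · have hu : u ∉ F.erase v := fun hu => h ⟨Finset.mem_of_mem_erase hu, hv⟩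
    have hpos : 0 < F.card := Finset.card_pos.2 ⟨v, hv⟩
    rw [Finset.card_insert_of_notMem hu, Finset.card_erase_of_mem hv]
    omega
  · exact hF

omit [Fintype V] in
theorem C1_con_fib (u v : V) (F G : Finset V) (h : ¬ (u ∈ F ∧ v ∈ F)) (e : con u v F = G) :
    F = G ∨ F = insert v (G.erase u) := by
  unfold con at e
  split_ifs at e with hv
  · right
    have hu : u ∉ F.erase v := fun hu => h ⟨Finset.mem_of_mem_erase hu, hv⟩
    rw [← e, Finset.erase_insert hu, Finset.insert_erase hv]
  · left; exact e

omit [Fintype V] in
theorem C1_fib_le_two (C : Finset (Finset V)) (u v : V) (G : Finset V) :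
    ((nb C u v).filter (fun F => con u v F = G)).card ≤ 2 := by
  have hs : (nb C u v).filter (fun F => con u v F = G) ⊆ {G, insert v (G.erase u)} := by
    intro F hF
    rw [Finset.mem_filter] at hF
    have h1 := (Finset.mem_filter.1 hF.1).2
    rcases C1_con_fib u v F G h1 hF.2 with h | h <;> simp [h]
  exact (Finset.card_le_card hs).trans Finset.card_le_two

theorem C1_contr_parity (C : Finset (Finset V)) (u v : V) (t : Finset V) :
    ∃ k, ((nb C u v).filter (fun F => t ⊆ con u v F)).card
      = ((contr C u v).filter (fun F => t ⊆ F)).card + 2 * k := by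
  classical
  set T : Finset (Finset V) := Finset.univ.filter (fun G => t ⊆ G) with hT
  have h1 : ((nb C u v).filter (fun F => t ⊆ con u v F)).card
      = ∑ G ∈ T, ((nb C u v).filter (fun F => con u v F = G)).card := by
    rw [Finset.card_eq_sum_card_fiberwise (f := con u v) (t := T)]
    · refine Finset.sum_congr rfl fun G hG => ?_
      congr 1
      ext F
      simp only [Finset.mem_filter]
      have hG' : t ⊆ G := (Finset.mem_filter.1 hG).2
      constructor
      · rintro ⟨⟨a, b⟩, c⟩
        exact ⟨a, c⟩
      · rintro ⟨a, c⟩
        exact ⟨⟨a, c ▸ hG'⟩, c⟩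
    · intro F hF
      have hF' := (Finset.mem_filter.1 (Finset.mem_coe.1 hF)).2
      simp [hT, hF']
  have h2 : ((contr C u v).filter (fun F => t ⊆ F)).card
      = ∑ G ∈ T, (if ((nb C u v).filter (fun F => con u v F = G)).card = 1 then 1 else 0) := by
    rw [← Finset.card_filter]
    congr 1
    ext G
    simp only [contr, hT, Finset.mem_filter, Finset.mem_univ, true_and]
    tauto
  refine ⟨∑ G ∈ T, (if ((nb C u v).filter (fun F => con u v F = G)).card = 2 then 1 else 0), ?_⟩
  rw [h1, h2, Finset.mul_sum, ← Finset.sum_add_distrib]
  refine Finset.sum_congr rfl fun G _ => ?_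
  have := C1_fib_le_two C u v G
  generalize ((nb C u v).filter (fun F => con u v F = G)).card = m at this ⊢
  interval_cases m <;> simp

theorem C1_contr_not_mem (C : Finset (Finset V)) (u v : V) (huv : u ≠ v) :
    ∀ F ∈ contr C u v, v ∉ F := by
  intro G hG
  have h := (Finset.mem_filter.1 hG).2
  obtain ⟨F, hF⟩ := Finset.card_pos.1 (by omega :
    0 < ((nb C u v).filter (fun F => con u v F = G)).card)
  rw [← (Finset.mem_filter.1 hF).2]
  exact C1_con_not_mem' u v huv F

theorem C1_contr_cycle (C : Finset (Finset V)) (h : IsCycle d C) (u v : V) (huv : u ≠ v) :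
    IsCycle d (contr C u v) := by
  classical
  constructor
  · intro G hG
    have h' := (Finset.mem_filter.1 hG).2
    obtain ⟨F, hF⟩ := Finset.card_pos.1 (by omega :
      0 < ((nb C u v).filter (fun F => con u v F = G)).card)
    have hF1 := Finset.mem_filter.1 hF
    have hF2 := Finset.mem_filter.1 hF1.1
    rw [← hF1.2]
    exact C1_con_card' u v F (h.1 F hF2.1) hF2.2
  · intro t ht
    obtain ⟨k, hk⟩ := C1_contr_parity C u v t
    suffices hs : Even ((nb C u v).filter (fun F => t ⊆ con u v F)).card by
      rw [hk] at hs
      rcases hs with ⟨r, hr⟩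
      exact ⟨r - k, by omega⟩
    by_cases hvt : v ∈ t
    · have : (nb C u v).filter (fun F => t ⊆ con u v F) = ∅ := by
        rw [Finset.filter_eq_empty_iff]
        intro F _ hF
        exact C1_con_not_mem' u v huv F (hF hvt)
      rw [this]; simp
    by_cases hut : u ∈ t
    · set s := t.erase u with hs
      have hvs : v ∉ s := fun h => hvt (Finset.mem_of_mem_erase h)
      have hus : u ∉ s := by simp [hs]
      have hts : t = insert u s := (Finset.insert_erase hut).symm
      have hsc : s.card + 2 = d := by
        have hpos : 0 < t.card := Finset.card_pos.2 ⟨u, hut⟩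
        rw [hs, Finset.card_erase_of_mem hut]
        omega
      have hB : Even (C.filter (fun F => insert v s ⊆ F)).card := by
        apply h.2
        rw [Finset.card_insert_of_notMem hvs, ← hsc]
      have hA : Even (C.filter (fun F => insert u s ⊆ F)).card := by
        apply h.2
        rw [Finset.card_insert_of_notMem hus, ← hsc]
      have key : (nb C u v).filter (fun F => t ⊆ con u v F)
          = (C.filter (fun F => insert u s ⊆ F) \ C.filter (fun F => insert v s ⊆ F)) ∪
            (C.filter (fun F => insert v s ⊆ F) \ C.filter (fun F => insert u s ⊆ F)) := by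
        ext F
        simp only [nb, Finset.mem_filter, Finset.mem_union, Finset.mem_sdiff,
          Finset.insert_subset_iff, hts]
        by_cases hvF : v ∈ F
        · have hcon : con u v F = insert u (F.erase v) := by simp [con, hvF]
          have hsub : s ⊆ insert u (F.erase v) ↔ s ⊆ F := by
            constructor
            · intro hh x hx
              have := hh hx
              rw [Finset.mem_insert] at this
              rcases this with rfl | h3
              · exact absurd hx hus
              · exact Finset.mem_of_mem_erase h3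
            · intro hh x hx
              rw [Finset.mem_insert]
              right
              rw [Finset.mem_erase]
              exact ⟨fun e => hvs (e ▸ hx), hh hx⟩
          rw [hcon, hsub]
          have : u ∈ insert u (F.erase v) := Finset.mem_insert_self _ _
          tauto
        · have hcon : con u v F = F := by simp [con, hvF]
          rw [hcon]
          tauto
      have hdis : Disjoint
          (C.filter (fun F => insert u s ⊆ F) \ C.filter (fun F => insert v s ⊆ F))
          (C.filter (fun F => insert v s ⊆ F) \ C.filter (fun F => insert u s ⊆ F)) := by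
        rw [Finset.disjoint_left]
        intro F h1 h2
        rw [Finset.mem_sdiff] at h1 h2
        exact h2.2 h1.1
      rw [key, Finset.card_union_of_disjoint hdis]
      have e1 := Finset.card_sdiff_add_card_inter
        (C.filter (fun F => insert u s ⊆ F)) (C.filter (fun F => insert v s ⊆ F))
      have e2 := Finset.card_sdiff_add_card_inter
        (C.filter (fun F => insert v s ⊆ F)) (C.filter (fun F => insert u s ⊆ F))
      rw [Finset.inter_comm] at e2
      rcases hA with ⟨a, ha⟩
      rcases hB with ⟨b, hb⟩
      refine ⟨a + b - (C.filter (fun F => insert u s ⊆ F) ∩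
        C.filter (fun F => insert v s ⊆ F)).card, ?_⟩
      omega
    · have key : (nb C u v).filter (fun F => t ⊆ con u v F) = C.filter (fun F => t ⊆ F) := by
        ext F
        simp only [nb, Finset.mem_filter]
        have hsub : t ⊆ con u v F ↔ t ⊆ F := by
          unfold con
          split_ifs with hv
          · constructor
            · intro hh x hx
              have := hh hx
              rw [Finset.mem_insert] at this
              rcases this with rfl | h3
              · exact absurd hx hut
              · exact Finset.mem_of_mem_erase h3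
            · intro hh x hx
              rw [Finset.mem_insert]
              right
              rw [Finset.mem_erase]
              exact ⟨fun e => hvt (e ▸ hx), hh hx⟩
          · rfl
        rw [hsub]
        constructor
        · rintro ⟨⟨a, _⟩, c⟩
          exact ⟨a, c⟩
        · rintro ⟨a, c⟩
          refine ⟨⟨a, ?_⟩, c⟩
          rintro ⟨hu, hv⟩
          have hsub2 : insert u (insert v t) ⊆ F := by
            rw [Finset.insert_subset_iff, Finset.insert_subset_iff]
            exact ⟨hu, hv, c⟩
          have hc := Finset.card_le_card hsub2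
          rw [Finset.card_insert_of_notMem (by simp [huv, hut]),
            Finset.card_insert_of_notMem hvt, h.1 F a] at hc
          omega
      rw [key]
      exact h.2 t ht


theorem t_DEC : S_DEC := fun _ _ _ _ C h => C1_exists_decomp C h

theorem t_CON : S_CON := fun _ _ _ _ _ C h u v huv =>
  ⟨C1_contr_cycle C h u v huv, C1_contr_not_mem C u v huv⟩

theorem t_THIN : S_THIN := by
  intro V _ _ d hd C hC u v huv hthin Z hZ t ht hut
  classical
  by_cases hvt : v ∈ t
  · have : Z.filter (fun F => t ⊆ F) = ∅ := by
      rw [Finset.filter_eq_empty_iff]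
      intro G hG hG'
      exact C1_contr_not_mem C u v huv G (hZ hG) (hG' hvt)
    rw [this]; simp
  · refine le_trans ?_ (hthin t ht hut)
    have key : Z.filter (fun F => t ⊆ F) ⊆ (C.filter (fun F => t ⊆ F)).image (con u v) := by
      intro G hG
      rw [Finset.mem_filter] at hG
      have h' := (Finset.mem_filter.1 (hZ hG.1)).2
      obtain ⟨F, hF⟩ := Finset.card_pos.1 (by omega :
        0 < ((nb C u v).filter (fun F => con u v F = G)).card)
      have hF1 := Finset.mem_filter.1 hF
      have hF2 := Finset.mem_filter.1 hF1.1
      rw [Finset.mem_image]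
      refine ⟨F, Finset.mem_filter.2 ⟨hF2.1, ?_⟩, hF1.2⟩
      rcases C1_con_fib u v F G hF2.2 hF1.2 with e | e
      · rw [e]; exact hG.2
      · rw [e]
        intro x hx
        rw [Finset.mem_insert]
        right
        rw [Finset.mem_erase]
        exact ⟨fun e' => hut (e' ▸ hx), hG.2 hx⟩
    exact (Finset.card_le_card key).trans Finset.card_image_le

end Pool.Agent.N525.VR
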