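import Pool.Agent.N525.VR.Stm

set_option autoImplicit false
namespace Pool.Agent.N525.VR
variable {V : Type} [Fintype V] [DecidableEq V]

theorem C2_bij (C Z : Finset (Finset V)) (u v : V) (hZC : Z ⊆ contr C u v)
    (Q : Finset V → Prop) [DecidablePred Q] :
    ((lift C u v Z).filter (fun F => Q (con u v F))).card = (Z.filter Q).card := by
  refine Finset.card_bij (fun F _ => con u v F) ?_ ?_ ?_
  · intro F hF
    simp only [lift, Finset.mem_filter] at hF ⊢
    exact ⟨hF.1.2, hF.2⟩
  · intro F hF F' hF' he
    simp only [lift, Finset.mem_filter] at hF hF'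
    have h1 := hZC hF.1.2
    simp only [contr, Finset.mem_filter] at h1
    obtain ⟨a, ha⟩ := Finset.card_eq_one.1 h1.2
    have hFa : F ∈ ({a} : Finset (Finset V)) := by
      rw [← ha, Finset.mem_filter]; exact ⟨hF.1.1, rfl⟩
    have hFa' : F' ∈ ({a} : Finset (Finset V)) := by
      rw [← ha, Finset.mem_filter]; exact ⟨hF'.1.1, he.symm⟩
    rw [Finset.mem_singleton] at hFa hFa'
    rw [hFa, hFa']
  · intro G hG
    rw [Finset.mem_filter] at hG
    have h1 := hZC hG.1
    simp only [contr, Finset.mem_filter] at h1
    obtain ⟨a, ha⟩ := Finset.card_eq_one.1 h1.2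
    have h2 : a ∈ (nb C u v).filter (fun F => con u v F = G) := by rw [ha]; simp
    rw [Finset.mem_filter] at h2
    refine ⟨a, ?_, h2.2⟩
    simp only [lift, Finset.mem_filter]
    rw [h2.2]
    exact ⟨⟨h2.1, hG.1⟩, hG.2⟩

theorem C2_lift_mem {C Z : Finset (Finset V)} {u v : V} {F : Finset V} (hF : F ∈ lift C u v Z) :
    F ∈ C ∧ ¬ (u ∈ F ∧ v ∈ F) := by
  simp only [lift, nb, Finset.mem_filter] at hF
  exact ⟨hF.1.1, hF.1.2⟩

theorem C2_con_sub (u v : V) (F t : Finset V) (hu : u ∉ t) (hv : v ∉ t) :
    t ⊆ con u v F ↔ t ⊆ F := by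
  unfold con
  split_ifs with h
  · constructor
    · intro ht x hx
      have := ht hx
      rw [Finset.mem_insert, Finset.mem_erase] at this
      rcases this with rfl | h
      · exact absurd hx hu
      · exact h.2
    · intro ht x hx
      rw [Finset.mem_insert, Finset.mem_erase]
      exact Or.inr ⟨fun e => hv (e ▸ hx), ht hx⟩
  · exact Iff.rfl

theorem C2_u_mem_con (u v : V) (F : Finset V) : u ∈ con u v F ↔ u ∈ F ∨ v ∈ F := by
  unfold con
  split_ifs with h
  · simp [h]
  · simp [h]

theorem C2_split (u v : V) (F s : Finset V) (hu : u ∉ s) (hv : v ∉ s) (hF : ¬ (u ∈ F ∧ v ∈ F)) :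
    ((if insert u s ⊆ con u v F then 1 else 0 : ZMod 2)) =
      (if insert u s ⊆ F then 1 else 0) + (if insert v s ⊆ F then 1 else 0) := by
  simp only [Finset.insert_subset_iff, C2_con_sub u v F s hu hv, C2_u_mem_con]
  by_cases h1 : u ∈ F <;> by_cases h2 : v ∈ F <;> by_cases h3 : s ⊆ F <;> simp_all

theorem C2_even_iff (n : ℕ) : Even n ↔ (n : ZMod 2) = 0 := by
  rw [ZMod.natCast_eq_zero_iff_even]

theorem C2_odd_iff (n : ℕ) : Odd n ↔ (n : ZMod 2) = 1 := by
  rw [ZMod.natCast_eq_one_iff_odd]

theorem C2_uv {d : ℕ} (C Z : Finset (Finset V)) (u v : V) (hZ : IsCycle d Z)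
    (hZC : Z ⊆ contr C u v)
    (s : Finset V) (hs : s.card + 2 = d) (hu : u ∉ s) (hv : v ∉ s) :
    (((lift C u v Z).filter (fun F => insert u s ⊆ F)).card : ZMod 2) +
      (((lift C u v Z).filter (fun F => insert v s ⊆ F)).card : ZMod 2) = 0 := by
  have h1 := hZ.2 (insert u s) (by rw [Finset.card_insert_of_notMem hu]; omega)
  rw [← C2_bij C Z u v hZC (fun G => insert u s ⊆ G), C2_even_iff, Finset.natCast_card_filter] at h1
  rw [Finset.natCast_card_filter, Finset.natCast_card_filter, ← Finset.sum_add_distrib]
  refine Eq.trans ?_ h1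
  refine Finset.sum_congr rfl fun F hF => ?_
  rw [C2_split u v F s hu hv (C2_lift_mem hF).2]

theorem C2_two {d : ℕ} (F e : Finset V) (u v : V) (hF : F.card = d) (hFu : u ∈ F) (hFv : v ∉ F)
    (he : e.card + 3 = d) (heu : u ∉ e) (heF : e ⊆ F) :
    ((Finset.univ : Finset (Finset V)).filter (fun K => (K.card + 2 = d ∧ u ∉ K ∧ v ∉ K ∧ e ⊆ K) ∧
      insert u K ⊆ F)).card = 2 := by
  have h1 : ((Finset.univ : Finset (Finset V)).filter (fun K => (K.card + 2 = d ∧ u ∉ K ∧ v ∉ K ∧
      e ⊆ K) ∧ insert u K ⊆ F)) = ((F.erase u) \ e).image (fun x => insert x e) := by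
    ext K
    simp only [Finset.mem_filter, Finset.mem_univ, true_and, Finset.mem_image, Finset.mem_sdiff,
      Finset.mem_erase]
    constructor
    · rintro ⟨⟨h3, hu, hv, heK⟩, hK⟩
      have hc : (K \ e).card = 1 := by
        rw [Finset.card_sdiff_of_subset heK]
        omega
      obtain ⟨x, hx⟩ := Finset.card_eq_one.1 hc
      have hxK : x ∈ K \ e := by rw [hx]; simp
      rw [Finset.mem_sdiff] at hxK
      refine ⟨x, ⟨⟨fun h => hu (h ▸ hxK.1), hK (Finset.mem_insert_of_mem hxK.1)⟩, hxK.2⟩, ?_⟩
      rw [← Finset.sdiff_union_of_subset heK, hx]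
      rfl
    · rintro ⟨x, ⟨⟨hxu, hxF⟩, hxe⟩, rfl⟩
      refine ⟨⟨?_, ?_, ?_, Finset.subset_insert _ _⟩, ?_⟩
      · rw [Finset.card_insert_of_notMem hxe]
        omega
      · rw [Finset.mem_insert, not_or]; exact ⟨fun h => hxu h.symm, heu⟩
      · rw [Finset.mem_insert, not_or]; exact ⟨fun h => hFv (h ▸ hxF), fun h => hFv (heF h)⟩
      · rw [Finset.insert_subset_iff, Finset.insert_subset_iff]
        exact ⟨hFu, hxF, heF⟩
  rw [h1, Finset.card_image_of_injOn, Finset.card_sdiff_of_subset, Finset.card_erase_of_mem hFu, hF]
  · omega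
  · intro x hx
    rw [Finset.mem_erase]
    exact ⟨fun h => heu (h ▸ hx), heF hx⟩
  · intro x hx y hy hxy
    simp only [Finset.coe_sdiff, Set.mem_sdiff, Finset.mem_coe] at hx hy
    have : x ∈ insert y e := by
      have hxy' : insert x e = insert y e := hxy
      rw [← hxy']; exact Finset.mem_insert_self _ _
    rw [Finset.mem_insert] at this
    rcases this with h | h
    · exact h
    · exact absurd h hx.2

theorem C2_added_even {d : ℕ} (C : Finset (Finset V)) (h : IsCycle d C) (u v : V)
    (Z : Finset (Finset V)) (e : Finset V) (he : e.card + 3 = d) (hu : u ∉ e) :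
    Even ((lam d C u v Z).filter (fun K => e ⊆ K)).card := by
  unfold lam
  rw [C2_even_iff, Finset.filter_filter, Finset.natCast_card_filter]
  have h1 : ∀ K : Finset V, (if (K.card + 2 = d ∧ u ∉ K ∧ v ∉ K ∧
      Odd ((lift C u v Z).filter (fun F => insert u K ⊆ F)).card) ∧ e ⊆ K then (1 : ZMod 2) else 0)
      = ∑ F ∈ lift C u v Z, if (K.card + 2 = d ∧ u ∉ K ∧ v ∉ K ∧ e ⊆ K) ∧ insert u K ⊆ F
          then 1 else 0 := by
    intro K
    by_cases hK : K.card + 2 = d ∧ u ∉ K ∧ v ∉ K ∧ e ⊆ K
    · simp only [hK, true_and, not_false_iff, and_true]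
      rw [← Finset.natCast_card_filter]
      rcases Nat.even_or_odd ((lift C u v Z).filter (fun F => insert u K ⊆ F)).card with h | h
      · rw [if_neg (by rwa [Nat.not_odd_iff_even]), (C2_even_iff _).1 h]
      · rw [if_pos h, (C2_odd_iff _).1 h]
    · rw [if_neg (by tauto)]
      symm
      apply Finset.sum_eq_zero
      intro F _
      rw [if_neg (by tauto)]
  rw [Finset.sum_congr rfl fun K _ => h1 K, Finset.sum_comm]
  apply Finset.sum_eq_zero
  intro F hF
  have hF' := C2_lift_mem hF
  rw [← Finset.natCast_card_filter]
  by_cases hFu : u ∈ F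
  · by_cases heF : e ⊆ F
    · rw [C2_two F e u v (h.1 F hF'.1) hFu (fun hv => hF'.2 ⟨hFu, hv⟩) he hu heF]
      rfl
    · rw [Finset.card_eq_zero.2]
      · simp
      · rw [Finset.filter_eq_empty_iff]
        rintro K _ ⟨hK, hK2⟩
        exact heF (hK.2.2.2.trans ((Finset.subset_insert _ _).trans hK2))
  · rw [Finset.card_eq_zero.2]
    · simp
    · rw [Finset.filter_eq_empty_iff]
      rintro K _ ⟨hK, hK2⟩
      exact hFu (hK2 (Finset.mem_insert_self _ _))

theorem C2_plus_cycle {d : ℕ} (hd : 3 ≤ d) (C : Finset (Finset V)) (h : IsCycle d C) (u v : V)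
    (huv : u ≠ v) (Z : Finset (Finset V)) (hZ : IsCycle d Z) (hZC : Z ⊆ contr C u v) :
    IsCycle d (plus d C u v Z) := by
  constructor
  · intro F hF
    unfold plus at hF
    rw [Finset.mem_union] at hF
    rcases hF with hF | hF
    · exact h.1 F (C2_lift_mem hF).1
    · simp only [added, lam, Finset.mem_image, Finset.mem_filter, Finset.mem_univ, true_and] at hF
      obtain ⟨K, ⟨hK, hu, hv, _⟩, rfl⟩ := hF
      rw [Finset.card_insert_of_notMem, Finset.card_insert_of_notMem hv]
      · omega
      · rw [Finset.mem_insert, not_or]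
        exact ⟨huv, hu⟩
  · intro t ht
    have hdisj : Disjoint (lift C u v Z) (added d C u v Z) := by
      rw [Finset.disjoint_left]
      intro F hF hF2
      simp only [added, lam, Finset.mem_image, Finset.mem_filter, Finset.mem_univ, true_and] at hF2
      obtain ⟨K, _, rfl⟩ := hF2
      exact (C2_lift_mem hF).2 ⟨by simp, by simp⟩
    set KK := lam d C u v Z with hKK
    have hadd : ((added d C u v Z).filter (fun F => t ⊆ F)).card =
        (KK.filter (fun K => t ⊆ insert u (insert v K))).card := by
      have : added d C u v Z = KK.image (fun K => insert u (insert v K)) := rfl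
      rw [this, Finset.filter_image, Finset.card_image_of_injOn]
      intro K hK K' hK' he
      simp only [Finset.coe_filter, Set.mem_ofPred_eq, hKK, lam, Finset.mem_filter, Finset.mem_univ, true_and] at hK hK'
      have he' : insert u (insert v K) = insert u (insert v K') := he
      have h1 : ∀ K : Finset V, u ∉ K → v ∉ K → ((insert u (insert v K)).erase u).erase v = K := by
        intro K h1 h2
        rw [Finset.erase_insert, Finset.erase_insert h2]
        rw [Finset.mem_insert, not_or]
        exact ⟨huv, h1⟩
      rw [← h1 K hK.1.2.1 hK.1.2.2.1, he', h1 K' hK'.1.2.1 hK'.1.2.2.1]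
    rw [plus, Finset.filter_union, Finset.card_union_of_disjoint
      (Finset.disjoint_filter_filter hdisj), hadd, C2_even_iff, Nat.cast_add]
    -- the number of K ∈ KK containing s, when s has three elements
    have hone : ∀ s : Finset V, s.card + 2 = d → u ∉ s → v ∉ s →
        ((KK.filter (fun K => s ⊆ K)).card : ZMod 2) =
          (((lift C u v Z).filter (fun F => insert u s ⊆ F)).card : ZMod 2) := by
      intro s hs hus hvs
      have h1 : KK.filter (fun K => s ⊆ K) = if Odd ((lift C u v Z).filter (fun F => insert u s ⊆ F)).card then {s} else ∅ := by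
        ext K
        rw [Finset.mem_filter, hKK, lam, Finset.mem_filter]
        constructor
        · rintro ⟨⟨_, h3, _, _, ho⟩, hsK⟩
          have : s = K := Finset.eq_of_subset_of_card_le hsK (by omega)
          subst this
          rw [if_pos ho]; simp
        · intro hK
          split_ifs at hK with ho
          · rw [Finset.mem_singleton] at hK
            subst hK
            exact ⟨⟨Finset.mem_univ _, hs, hus, hvs, ho⟩, Finset.Subset.refl _⟩
          · simp at hK
      rw [h1]
      split_ifs with ho
      · rw [(C2_odd_iff _).1 ho]; simp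
      · rw [Nat.not_odd_iff_even, C2_even_iff] at ho
        rw [ho]; simp
    by_cases hu : u ∈ t <;> by_cases hv : v ∈ t
    · -- both
      have h0 : (lift C u v Z).filter (fun F => t ⊆ F) = ∅ := by
        rw [Finset.filter_eq_empty_iff]
        intro F hF htF
        exact (C2_lift_mem hF).2 ⟨htF hu, htF hv⟩
      have he : ((t.erase u).erase v).card + 3 = d := by
        rw [Finset.card_erase_of_mem (Finset.mem_erase.2 ⟨huv.symm, hv⟩), Finset.card_erase_of_mem hu]
        have h2 : 2 ≤ t.card := by omega
        omega
      have h1 := C2_added_even C h u v Z ((t.erase u).erase v) he (by simp)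
      rw [← hKK, C2_even_iff] at h1
      rw [h0, Finset.card_empty, Nat.cast_zero, zero_add, ← h1]
      congr 2
      apply Finset.filter_congr
      intro K hK
      constructor
      · intro htK x hx
        rw [Finset.mem_erase, Finset.mem_erase] at hx
        have := htK hx.2.2
        rw [Finset.mem_insert, Finset.mem_insert] at this
        tauto
      · intro hK x hx
        rw [Finset.mem_insert, Finset.mem_insert]
        by_cases hxu : x = u
        · exact Or.inl hxu
        by_cases hxv : x = v
        · exact Or.inr (Or.inl hxv)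
        · exact Or.inr (Or.inr (hK (Finset.mem_erase.2 ⟨hxv, Finset.mem_erase.2 ⟨hxu, hx⟩⟩)))
    · -- u only
      have hs : (t.erase u).card + 2 = d := by rw [Finset.card_erase_of_mem hu]; omega
      have hts : insert u (t.erase u) = t := Finset.insert_erase hu
      have hus : u ∉ t.erase u := by simp
      have hvs : v ∉ t.erase u := fun h => hv (Finset.mem_of_mem_erase h)
      have h1 := hone (t.erase u) hs hus hvs
      rw [hts] at h1
      have h2 : KK.filter (fun K => t ⊆ insert u (insert v K)) = KK.filter (fun K => t.erase u ⊆ K) := by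
        apply Finset.filter_congr
        intro K hK
        constructor
        · intro htK x hx
          have := htK (Finset.mem_of_mem_erase hx)
          rw [Finset.mem_insert, Finset.mem_insert] at this
          rcases this with rfl | rfl | h
          · exact absurd hx hus
          · exact absurd hx hvs
          · exact h
        · intro hK x hx
          rw [Finset.mem_insert, Finset.mem_insert]
          by_cases hxu : x = u
          · exact Or.inl hxu
          · exact Or.inr (Or.inr (hK (Finset.mem_erase.2 ⟨hxu, hx⟩)))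
      rw [h2, h1]
      exact CharTwo.add_self_eq_zero _
    · -- v only
      have hs : (t.erase v).card + 2 = d := by rw [Finset.card_erase_of_mem hv]; omega
      have hts : insert v (t.erase v) = t := Finset.insert_erase hv
      have hvs : v ∉ t.erase v := by simp
      have hus : u ∉ t.erase v := fun h => hu (Finset.mem_of_mem_erase h)
      have h1 := hone (t.erase v) hs hus hvs
      have h3 := C2_uv C Z u v hZ hZC (t.erase v) hs hus hvs
      rw [hts] at h3
      have h2 : KK.filter (fun K => t ⊆ insert u (insert v K)) = KK.filter (fun K => t.erase v ⊆ K) := by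
        apply Finset.filter_congr
        intro K hK
        constructor
        · intro htK x hx
          have := htK (Finset.mem_of_mem_erase hx)
          rw [Finset.mem_insert, Finset.mem_insert] at this
          rcases this with rfl | rfl | h
          · exact absurd hx hus
          · exact absurd hx hvs
          · exact h
        · intro hK x hx
          rw [Finset.mem_insert, Finset.mem_insert]
          by_cases hxv : x = v
          · exact Or.inr (Or.inl hxv)
          · exact Or.inr (Or.inr (hK (Finset.mem_erase.2 ⟨hxv, hx⟩)))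
      rw [h2, h1, add_comm]
      exact h3
    · -- neither
      have h0 : KK.filter (fun K => t ⊆ insert u (insert v K)) = ∅ := by
        rw [Finset.filter_eq_empty_iff]
        intro K hK htK
        rw [hKK, lam, Finset.mem_filter] at hK
        have : t ⊆ K := by
          intro x hx
          have := htK hx
          rw [Finset.mem_insert, Finset.mem_insert] at this
          rcases this with rfl | rfl | h
          · exact absurd hx hu
          · exact absurd hx hv
          · exact h
        have := Finset.card_le_card this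
        have h5 := hK.2.1
        omega
      have h1 := hZ.2 t ht
      rw [← C2_bij C Z u v hZC (fun G => t ⊆ G), C2_even_iff] at h1
      rw [h0, Finset.card_empty, Nat.cast_zero, add_zero, ← h1]
      congr 2
      apply Finset.filter_congr
      intro F hF
      exact (C2_con_sub u v F t hu hv).symm

theorem t_PLUS : S_PLUS := by
  intro V _ _ d hd C hC u v huv Z hZ hZC
  exact ⟨C2_plus_cycle hd C hC u v huv Z hZ hZC, fun e he hu _ => C2_added_even C hC u v Z e he hu⟩

end Pool.Agent.N525.VR
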