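import Pool.Agent.N525.VR.Stm

set_option autoImplicit false
namespace Pool.Agent.N525.VR
variable {V : Type} [Fintype V] [DecidableEq V]
variable {d : ℕ}

/-- mod 2 sum of a family -/
def C3_SX (X : Finset (Finset (Finset V))) : Finset (Finset V) :=
  Finset.univ.filter (fun F => Odd (X.filter (fun P => F ∈ P)).card)

theorem C3_SX_cycle (X : Finset (Finset (Finset V))) (hX : ∀ P ∈ X, IsCycle d P) :
    IsCycle d (C3_SX X) := by
  constructor
  · intro F hF
    have h := (Finset.mem_filter.1 hF).2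
    have : (X.filter (fun P => F ∈ P)).Nonempty := by
      rw [← Finset.card_pos]; exact h.pos
    obtain ⟨P, hP⟩ := this
    obtain ⟨hP1, hP2⟩ := Finset.mem_filter.1 hP
    exact (hX P hP1).1 F hP2
  · intro t ht
    rw [← ZMod.natCast_eq_zero_iff_even]
    have e1 : (((C3_SX X).filter (fun F => t ⊆ F)).card : ZMod 2)
        = ∑ F : Finset V, if t ⊆ F then ((X.filter (fun P => F ∈ P)).card : ZMod 2) else 0 := by
      unfold C3_SX
      rw [Finset.filter_filter, Finset.card_filter]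
      push_cast
      refine Finset.sum_congr rfl (fun F _ => ?_)
      by_cases h1 : t ⊆ F
      · by_cases h2 : Odd (X.filter (fun P => F ∈ P)).card
        · rw [if_pos ⟨h2, h1⟩, if_pos h1, ZMod.natCast_eq_one_iff_odd.2 h2]
        · rw [if_neg (fun h => h2 h.1), if_pos h1,
            ZMod.natCast_eq_zero_iff_even.2 (Nat.not_odd_iff_even.1 h2)]
      · rw [if_neg (fun h => h1 h.2), if_neg h1]
    rw [e1]
    have e2 : (∑ F : Finset V, if t ⊆ F then ((X.filter (fun P => F ∈ P)).card : ZMod 2) else 0)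
        = ∑ P ∈ X, ((P.filter (fun F => t ⊆ F)).card : ZMod 2) := by
      have e3 : ∀ P : Finset (Finset V), ((P.filter (fun F => t ⊆ F)).card : ZMod 2)
          = ∑ F : Finset V, if t ⊆ F then (if F ∈ P then (1 : ZMod 2) else 0) else 0 := by
        intro P
        have : P.filter (fun F => t ⊆ F) = Finset.univ.filter (fun F => t ⊆ F ∧ F ∈ P) := by
          ext F; simp [and_comm]
        rw [this, Finset.card_filter]
        push_cast
        refine Finset.sum_congr rfl (fun F _ => ?_)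
        by_cases h1 : t ⊆ F <;> by_cases h2 : F ∈ P <;> simp [h1, h2]
      rw [Finset.sum_congr rfl (fun P _ => e3 P), Finset.sum_comm]
      refine Finset.sum_congr rfl (fun F _ => ?_)
      by_cases h1 : t ⊆ F
      · simp only [if_pos h1]
        rw [Finset.card_filter]
        push_cast
        rfl
      · simp only [if_neg h1, Finset.sum_const_zero]
    rw [e2]
    exact Finset.sum_eq_zero (fun P hP => ZMod.natCast_eq_zero_iff_even.2 ((hX P hP).2 t ht))

/-- two cycles which agree off the open star of an edge are equal, one direction -/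
theorem C3_cyc_sub (C C' : Finset (Finset V)) (h : IsCycle d C) (h' : IsCycle d C') (u v : V)
    (huv : u ≠ v) (hag : ∀ G, ¬ (u ∈ G ∧ v ∈ G) → (G ∈ C ↔ G ∈ C')) : C ⊆ C' := by
  intro F hF
  by_cases hb : u ∈ F ∧ v ∈ F
  · by_contra hF'
    have hc := h.1 F hF
    have hpos : 0 < F.card := Finset.card_pos.2 ⟨v, hb.2⟩
    have ht : (F.erase v).card + 1 = d := by rw [Finset.card_erase_of_mem hb.2]; omega
    have key : ∀ G : Finset V, G.card = d → F.erase v ⊆ G → G ≠ F → v ∉ G := by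
      intro G hG hsub hne hv
      apply hne
      have : F ⊆ G := by
        rw [← Finset.insert_erase hb.2]
        exact Finset.insert_subset hv hsub
      exact (Finset.eq_of_subset_of_card_le this (by rw [hG, hc])).symm
    have e : C.filter (fun G => F.erase v ⊆ G) =
        insert F (C'.filter (fun G => F.erase v ⊆ G)) := by
      ext G
      simp only [Finset.mem_filter, Finset.mem_insert]
      constructor
      · rintro ⟨hG, hs⟩
        by_cases hGF : G = F
        · exact Or.inl hGF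
        · right
          have := key G (h.1 G hG) hs hGF
          exact ⟨(hag G (fun hh => this hh.2)).1 hG, hs⟩
      · rintro (hG | ⟨hG, hs⟩)
        · rw [hG]; exact ⟨hF, Finset.erase_subset _ _⟩
        · have hGF : G ≠ F := fun hh => hF' (hh ▸ hG)
          have := key G (h'.1 G hG) hs hGF
          exact ⟨(hag G (fun hh => this hh.2)).2 hG, hs⟩
    have h1 := h.2 _ ht
    have h2 := h'.2 _ ht
    rw [e, Finset.card_insert_of_notMem (by simp [hF'])] at h1
    have : ¬ Even ((C'.filter (fun G => F.erase v ⊆ G)).card + 1) := by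
      rw [Nat.even_add_one]; simpa using h2
    exact this h1
  · exact (hag F hb).1 hF

theorem C3_cyc_eq (C C' : Finset (Finset V)) (h : IsCycle d C) (h' : IsCycle d C') (u v : V)
    (huv : u ≠ v) (hag : ∀ G, ¬ (u ∈ G ∧ v ∈ G) → (G ∈ C ↔ G ∈ C')) : C = C' :=
  Finset.Subset.antisymm (C3_cyc_sub C C' h h' u v huv hag)
    (C3_cyc_sub C' C h' h u v huv (fun G hG => (hag G hG).symm))

theorem C3_ps_cycle (hd : 3 ≤ d) (W : Finset V) (hW : W.card = d + 1) : IsCycle d (W.powersetCard d) := by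
  constructor
  · intro F hF; exact (Finset.mem_powersetCard.1 hF).2
  · intro t ht
    by_cases htW : t ⊆ W
    · have e : (W.powersetCard d).filter (fun F => t ⊆ F) = (W \ t).image (fun x => W.erase x) := by
        ext F
        simp only [Finset.mem_filter, Finset.mem_powersetCard, Finset.mem_image,
          Finset.mem_sdiff]
        constructor
        · rintro ⟨⟨hF, hc⟩, hs⟩
          have hcard : (W \ F).card = 1 := by
            rw [Finset.card_sdiff_of_subset hF, hW, hc]; omega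
          obtain ⟨x, hx⟩ := Finset.card_eq_one.1 hcard
          have hxW : x ∈ W \ F := by rw [hx]; simp
          obtain ⟨hx1, hx2⟩ := Finset.mem_sdiff.1 hxW
          refine ⟨x, ⟨hx1, fun hxt => hx2 (hs hxt)⟩, ?_⟩
          symm
          apply Finset.eq_of_subset_of_card_le
          · intro y hy
            exact Finset.mem_erase.2 ⟨fun hh => hx2 (hh ▸ hy), hF hy⟩
          · rw [Finset.card_erase_of_mem hx1, hW, hc]; omega
        · rintro ⟨x, ⟨hx1, hx2⟩, rfl⟩
          refine ⟨⟨Finset.erase_subset _ _, by rw [Finset.card_erase_of_mem hx1, hW]; omega⟩, ?_⟩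
          intro y hy
          exact Finset.mem_erase.2 ⟨fun hh => hx2 (hh ▸ hy), htW hy⟩
      rw [e, Finset.card_image_of_injOn, Finset.card_sdiff_of_subset htW, hW]
      · rw [show d + 1 - t.card = 2 by omega]
        exact even_two
      · intro x hx y hy hxy
        by_contra hne
        have hx1 := (Finset.mem_sdiff.1 hx).1
        have : x ∈ W.erase y := Finset.mem_erase.2 ⟨hne, hx1⟩
        rw [← show W.erase x = W.erase y from hxy] at this
        simp at this
    · have e : (W.powersetCard d).filter (fun F => t ⊆ F) = ∅ := by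
        rw [Finset.filter_eq_empty_iff]
        intro F hF hs
        exact htW (hs.trans (Finset.mem_powersetCard.1 hF).1)
      rw [e]; simp

theorem C3_W_card (u v : V) (huv : u ≠ v) (U : Finset V) (h4 : U.card + 1 = d) (hu : u ∉ U)
    (hv : v ∉ U) : (insert u (insert v U)).card = d + 1 := by
  rw [Finset.card_insert_of_notMem (by simp [huv, hu]), Finset.card_insert_of_notMem hv, h4]

/-- members of `P_U` not containing both vertices -/
theorem C3_mem_PU (u v : V) (huv : u ≠ v) (U : Finset V) (h4 : U.card + 1 = d) (hu : u ∉ U)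
    (hv : v ∉ U) (F : Finset V) (hF : F ∈ (insert u (insert v U)).powersetCard d)
    (hb : ¬ (u ∈ F ∧ v ∈ F)) : F = insert u U ∨ F = insert v U := by
  obtain ⟨hs, hc⟩ := Finset.mem_powersetCard.1 hF
  by_cases hvF : v ∈ F
  · right
    have huF : u ∉ F := fun h => hb ⟨h, hvF⟩
    apply Finset.eq_of_subset_of_card_le
    · intro y hy
      have := hs hy
      rcases Finset.mem_insert.1 this with h | h
      · exact absurd (h ▸ hy) huF
      · exact h
    · rw [Finset.card_insert_of_notMem hv, h4, hc]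
  · left
    apply Finset.eq_of_subset_of_card_le
    · intro y hy
      have := hs hy
      rcases Finset.mem_insert.1 this with h | h
      · exact Finset.mem_insert.2 (Or.inl h)
      · rcases Finset.mem_insert.1 h with h | h
        · exact absurd (h ▸ hy) hvF
        · exact Finset.mem_insert.2 (Or.inr h)
    · rw [Finset.card_insert_of_notMem hu, h4, hc]

theorem C3_con_insert_u (u v : V) (huv : u ≠ v) (U : Finset V) (hv : v ∉ U) :
    con u v (insert u U) = insert u U := by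
  unfold con
  rw [if_neg (by simp [huv.symm, hv])]

theorem C3_con_insert_v (u v : V) (U : Finset V) (hv : v ∉ U) :
    con u v (insert v U) = insert u U := by
  unfold con
  rw [if_pos (by simp), Finset.erase_insert hv]

theorem C3_mem_nb (C : Finset (Finset V)) (u v : V) (F : Finset V) :
    F ∈ nb C u v ↔ F ∈ C ∧ ¬ (u ∈ F ∧ v ∈ F) := by
  unfold nb; rw [Finset.mem_filter]

theorem C3_mem_pairs (C : Finset (Finset V)) (u v : V) (U : Finset V) :
    U ∈ pairs d C u v ↔ U.card + 1 = d ∧ u ∉ U ∧ v ∉ U ∧ insert u U ∈ C ∧ insert v U ∈ C := by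
  unfold pairs; simp

theorem C3_insert_u_nb (C : Finset (Finset V)) (u v : V) (huv : u ≠ v) (U : Finset V)
    (hU : U ∈ pairs d C u v) : insert u U ∈ nb C u v := by
  obtain ⟨h4, hu, hv, h1, h2⟩ := (C3_mem_pairs C u v U).1 hU
  rw [C3_mem_nb]
  exact ⟨h1, fun h => by have := h.2; simp [huv.symm, hv] at this⟩

theorem C3_insert_v_nb (C : Finset (Finset V)) (u v : V) (huv : u ≠ v) (U : Finset V)
    (hU : U ∈ pairs d C u v) : insert v U ∈ nb C u v := by
  obtain ⟨h4, hu, hv, h1, h2⟩ := (C3_mem_pairs C u v U).1 hU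
  rw [C3_mem_nb]
  exact ⟨h2, fun h => by have := h.1; simp [huv, hu] at this⟩

theorem C3_added_both (C : Finset (Finset V)) (u v : V) (Z : Finset (Finset V)) (F : Finset V)
    (hF : F ∈ added d C u v Z) : u ∈ F ∧ v ∈ F := by
  unfold added at hF
  obtain ⟨K, _, rfl⟩ := Finset.mem_image.1 hF
  simp

theorem C3_mem_plus (C : Finset (Finset V)) (u v : V) (Z : Finset (Finset V)) (F : Finset V)
    (hb : ¬ (u ∈ F ∧ v ∈ F)) : F ∈ plus d C u v Z ↔ F ∈ nb C u v ∧ con u v F ∈ Z := by
  unfold plus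
  rw [Finset.mem_union]
  constructor
  · rintro (h | h)
    · unfold lift at h; exact Finset.mem_filter.1 h
    · exact absurd (C3_added_both C u v Z F h) hb
  · intro h; left; unfold lift; exact Finset.mem_filter.2 h

theorem C3_mem_contr (C : Finset (Finset V)) (u v : V) (G : Finset V) :
    G ∈ contr C u v ↔ ((nb C u v).filter (fun F => con u v F = G)).card = 1 := by
  unfold contr; simp

/-- the contraction of a member of a degenerate pair is not in the contraction -/
theorem C3_pair_not_contr (C : Finset (Finset V)) (u v : V) (huv : u ≠ v) (U : Finset V)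
    (hU : U ∈ pairs d C u v) : insert u U ∉ contr C u v := by
  intro h
  rw [C3_mem_contr, Finset.card_eq_one] at h
  obtain ⟨x, hx⟩ := h
  have hU' := (C3_mem_pairs C u v U).1 hU
  have h1 : insert u U ∈ (nb C u v).filter (fun F => con u v F = insert u U) :=
    Finset.mem_filter.2 ⟨C3_insert_u_nb C u v huv U hU, C3_con_insert_u u v huv U hU'.2.2.1⟩
  have h2 : insert v U ∈ (nb C u v).filter (fun F => con u v F = insert u U) :=
    Finset.mem_filter.2 ⟨C3_insert_v_nb C u v huv U hU, C3_con_insert_v u v U hU'.2.2.1⟩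
  rw [hx, Finset.mem_singleton] at h1 h2
  have h3 : insert u U = insert v U := h1.trans h2.symm
  have : u ∈ insert v U := by rw [← h3]; simp
  simp [huv, hU'.2.1] at this

/-- a member of `nb C` whose contraction is not in the contraction of `C` is in a pair -/
theorem C3_in_pair (C : Finset (Finset V)) (h : IsCycle d C) (u v : V) (huv : u ≠ v) (F : Finset V)
    (hF : F ∈ nb C u v) (hc : con u v F ∉ contr C u v) :
    ∃ U ∈ pairs d C u v, con u v F = insert u U ∧ (F = insert u U ∨ F = insert v U) := by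
  rw [C3_mem_contr] at hc
  have hFm : F ∈ (nb C u v).filter (fun F' => con u v F' = con u v F) :=
    Finset.mem_filter.2 ⟨hF, rfl⟩
  have hex : ∃ F' ∈ (nb C u v).filter (fun F' => con u v F' = con u v F), F' ≠ F := by
    by_contra hno
    push Not at hno
    apply hc
    rw [Finset.card_eq_one]
    exact ⟨F, Finset.eq_singleton_iff_unique_mem.2 ⟨hFm, hno⟩⟩
  obtain ⟨F', hF', hne⟩ := hex
  obtain ⟨hF'n, hcon⟩ := Finset.mem_filter.1 hF'
  obtain ⟨hFC, hFb⟩ := (C3_mem_nb C u v F).1 hF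
  obtain ⟨hFC', hFb'⟩ := (C3_mem_nb C u v F').1 hF'n
  by_cases hvF : v ∈ F
  · have huF : u ∉ F := fun hh => hFb ⟨hh, hvF⟩
    have e1 : con u v F = insert u (F.erase v) := by unfold con; rw [if_pos hvF]
    by_cases hvF' : v ∈ F'
    · exfalso
      have huF' : u ∉ F' := fun hh => hFb' ⟨hh, hvF'⟩
      have e2 : con u v F' = insert u (F'.erase v) := by unfold con; rw [if_pos hvF']
      rw [e1, e2] at hcon
      have e3 : F'.erase v = F.erase v := by
        have := congrArg (fun s => s.erase u) hcon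
        simpa [Finset.erase_insert, huF, huF'] using this
      apply hne
      rw [← Finset.insert_erase hvF, ← Finset.insert_erase hvF', e3]
    · have e2 : con u v F' = F' := by unfold con; rw [if_neg hvF']
      rw [e2, e1] at hcon
      refine ⟨F.erase v, ?_, e1, Or.inr (Finset.insert_erase hvF).symm⟩
      rw [C3_mem_pairs]
      refine ⟨by rw [Finset.card_erase_of_mem hvF, h.1 F hFC]; exact Nat.sub_add_cancel ((h.1 F hFC) ▸ Finset.card_pos.2 ⟨v, hvF⟩), fun hh => huF (Finset.mem_of_mem_erase hh),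
        by simp, hcon ▸ hFC', by rw [Finset.insert_erase hvF]; exact hFC⟩
  · have e1 : con u v F = F := by unfold con; rw [if_neg hvF]
    by_cases hvF' : v ∈ F'
    · have huF' : u ∉ F' := fun hh => hFb' ⟨hh, hvF'⟩
      have e2 : con u v F' = insert u (F'.erase v) := by unfold con; rw [if_pos hvF']
      rw [e2, e1] at hcon
      refine ⟨F'.erase v, ?_, by rw [e1, hcon], Or.inl hcon.symm⟩
      rw [C3_mem_pairs]
      refine ⟨by rw [Finset.card_erase_of_mem hvF', h.1 F' hFC']; exact Nat.sub_add_cancel ((h.1 F' hFC') ▸ Finset.card_pos.2 ⟨v, hvF'⟩),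
        fun hh => huF' (Finset.mem_of_mem_erase hh),
        by simp, hcon ▸ hFC, by rw [Finset.insert_erase hvF']; exact hFC'⟩
    · exfalso
      have e2 : con u v F' = F' := by unfold con; rw [if_neg hvF']
      rw [e2, e1] at hcon
      exact hne hcon

theorem C3_mem_pieces (C : Finset (Finset V)) (u v : V) (Z : Finset (Finset (Finset V)))
    (P : Finset (Finset V)) : P ∈ pieces d C u v Z ↔ (∃ A ∈ Z, plus d C u v A = P) ∨
      ∃ U ∈ pairs d C u v, (insert u (insert v U)).powersetCard d = P := by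
  unfold pieces
  rw [Finset.mem_union, Finset.mem_image, Finset.mem_image]

theorem C3_piece_cycle (hd : 3 ≤ d) (H2 : S_PLUS) (C : Finset (Finset V)) (h : IsCycle d C) (u v : V) (huv : u ≠ v)
    (Z : Finset (Finset (Finset V)))
    (h1 : ∀ A ∈ Z, MinCycle d A) (h2 : ∀ A ∈ Z, A ⊆ contr C u v)
    (P : Finset (Finset V)) (hP : P ∈ pieces d C u v Z) : IsCycle d P := by
  rcases (C3_mem_pieces C u v Z P).1 hP with ⟨A, hA, rfl⟩ | ⟨U, hU, rfl⟩
  · exact (H2 V d hd C h u v huv A (h1 A hA).1 (h2 A hA)).1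
  · obtain ⟨h4, hu, hv, _, _⟩ := (C3_mem_pairs C u v U).1 hU
    exact C3_ps_cycle hd _ (C3_W_card u v huv U h4 hu hv)

/-- (B) -/
theorem C3_piece_nb (C : Finset (Finset V)) (u v : V) (huv : u ≠ v)
    (Z : Finset (Finset (Finset V)))
    (P : Finset (Finset V)) (hP : P ∈ pieces d C u v Z) (F : Finset V) (hF : F ∈ P)
    (hb : ¬ (u ∈ F ∧ v ∈ F)) : F ∈ nb C u v := by
  rcases (C3_mem_pieces C u v Z P).1 hP with ⟨A, hA, rfl⟩ | ⟨U, hU, rfl⟩
  · exact ((C3_mem_plus C u v A F hb).1 hF).1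
  · obtain ⟨h4, hu, hv, _, _⟩ := (C3_mem_pairs C u v U).1 hU
    rcases C3_mem_PU u v huv U h4 hu hv F hF hb with rfl | rfl
    · exact C3_insert_u_nb C u v huv U hU
    · exact C3_insert_v_nb C u v huv U hU

/-- (C) -/
theorem C3_piece_has (C : Finset (Finset V)) (u v : V) (huv : u ≠ v)
    (Z : Finset (Finset (Finset V)))
    (h1 : ∀ A ∈ Z, MinCycle d A) (h2 : ∀ A ∈ Z, A ⊆ contr C u v)
    (P : Finset (Finset V)) (hP : P ∈ pieces d C u v Z) : ∃ F ∈ nb C u v, F ∈ P := by
  rcases (C3_mem_pieces C u v Z P).1 hP with ⟨A, hA, rfl⟩ | ⟨U, hU, rfl⟩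
  · obtain ⟨G, hG⟩ := (h1 A hA).2.1
    have := (C3_mem_contr C u v G).1 (h2 A hA hG)
    obtain ⟨F, hF⟩ := Finset.card_eq_one.1 this
    have hF' : F ∈ (nb C u v).filter (fun F => con u v F = G) := by rw [hF]; simp
    obtain ⟨hn, hc⟩ := Finset.mem_filter.1 hF'
    refine ⟨F, hn, ?_⟩
    rw [C3_mem_plus C u v A F ((C3_mem_nb C u v F).1 hn).2]
    exact ⟨hn, hc ▸ hG⟩
  · obtain ⟨h4, hu, hv, _, _⟩ := (C3_mem_pairs C u v U).1 hU
    refine ⟨insert u U, C3_insert_u_nb C u v huv U hU, ?_⟩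
    rw [Finset.mem_powersetCard]
    refine ⟨?_, by rw [Finset.card_insert_of_notMem hu, h4]⟩
    intro y hy
    rcases Finset.mem_insert.1 hy with h | h
    · simp [h]
    · simp [h]

/-- (A) existence -/
theorem C3_piece_exists (C : Finset (Finset V)) (h : IsCycle d C) (u v : V) (huv : u ≠ v)
    (Z : Finset (Finset (Finset V)))
    (h3 : ∀ F ∈ contr C u v, ∃ A ∈ Z, F ∈ A)
    (F : Finset V) (hF : F ∈ nb C u v) : ∃ P ∈ pieces d C u v Z, F ∈ P := by
  have hb := ((C3_mem_nb C u v F).1 hF).2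
  by_cases hc : con u v F ∈ contr C u v
  · obtain ⟨A, hA, hFA⟩ := h3 _ hc
    exact ⟨plus d C u v A, (C3_mem_pieces C u v Z _).2 (Or.inl ⟨A, hA, rfl⟩),
      (C3_mem_plus C u v A F hb).2 ⟨hF, hFA⟩⟩
  · obtain ⟨U, hU, _, hFU⟩ := C3_in_pair C h u v huv F hF hc
    obtain ⟨h4, hu, hv, _, _⟩ := (C3_mem_pairs C u v U).1 hU
    refine ⟨_, (C3_mem_pieces C u v Z _).2 (Or.inr ⟨U, hU, rfl⟩), ?_⟩
    rw [Finset.mem_powersetCard]
    rcases hFU with rfl | rfl
    · refine ⟨?_, by rw [Finset.card_insert_of_notMem hu, h4]⟩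
      intro y hy
      rcases Finset.mem_insert.1 hy with h | h <;> simp [h]
    · refine ⟨?_, by rw [Finset.card_insert_of_notMem hv, h4]⟩
      intro y hy
      rcases Finset.mem_insert.1 hy with h | h <;> simp [h]

/-- (A) uniqueness -/
theorem C3_piece_unique (C : Finset (Finset V)) (h : IsCycle d C) (u v : V) (huv : u ≠ v)
    (Z : Finset (Finset (Finset V)))
    (h2 : ∀ A ∈ Z, A ⊆ contr C u v)
    (h4 : ∀ A ∈ Z, ∀ B ∈ Z, A ≠ B → Disjoint A B)
    (F : Finset V) (hF : F ∈ nb C u v) (P Q : Finset (Finset V)) (hP : P ∈ pieces d C u v Z)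
    (hQ : Q ∈ pieces d C u v Z) (hFP : F ∈ P) (hFQ : F ∈ Q) : P = Q := by
  have hb := ((C3_mem_nb C u v F).1 hF).2
  have key1 : ∀ A ∈ Z, ∀ U ∈ pairs d C u v, F ∈ plus d C u v A →
      F ∈ (insert u (insert v U)).powersetCard d → False := by
    intro A hA U hU hFA hFU
    have hc := h2 A hA ((C3_mem_plus C u v A F hb).1 hFA).2
    obtain ⟨h4', hu, hv, _, _⟩ := (C3_mem_pairs C u v U).1 hU
    have hcon : con u v F = insert u U := by
      rcases C3_mem_PU u v huv U h4' hu hv F hFU hb with rfl | rfl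
      · exact C3_con_insert_u u v huv U hv
      · exact C3_con_insert_v u v U hv
    rw [hcon] at hc
    exact C3_pair_not_contr C u v huv U hU hc
  rcases (C3_mem_pieces C u v Z P).1 hP with ⟨A, hA, rfl⟩ | ⟨U, hU, rfl⟩
  · rcases (C3_mem_pieces C u v Z Q).1 hQ with ⟨B, hB, rfl⟩ | ⟨U', hU', rfl⟩
    · have hAB : A = B := by
        by_contra hne
        exact Finset.disjoint_left.1 (h4 A hA B hB hne) ((C3_mem_plus C u v A F hb).1 hFP).2
          ((C3_mem_plus C u v B F hb).1 hFQ).2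
      rw [hAB]
    · exact (key1 A hA U' hU' hFP hFQ).elim
  · rcases (C3_mem_pieces C u v Z Q).1 hQ with ⟨B, hB, rfl⟩ | ⟨U', hU', rfl⟩
    · exact (key1 B hB U hU hFQ hFP).elim
    · obtain ⟨h4', hu, hv, _, _⟩ := (C3_mem_pairs C u v U).1 hU
      obtain ⟨h4'', hu', hv', _, _⟩ := (C3_mem_pairs C u v U').1 hU'
      have e1 : con u v F = insert u U := by
        rcases C3_mem_PU u v huv U h4' hu hv F hFP hb with rfl | rfl
        · exact C3_con_insert_u u v huv U hv
        · exact C3_con_insert_v u v U hv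
      have e2 : con u v F = insert u U' := by
        rcases C3_mem_PU u v huv U' h4'' hu' hv' F hFQ hb with rfl | rfl
        · exact C3_con_insert_u u v huv U' hv'
        · exact C3_con_insert_v u v U' hv'
      have e3 : U = U' := by
        have := congrArg (fun s => s.erase u) (e1.symm.trans e2)
        simpa [Finset.erase_insert, hu, hu'] using this
      rw [e3]

theorem C3_SX_nb (C : Finset (Finset V)) (h : IsCycle d C) (u v : V) (huv : u ≠ v)
    (Z : Finset (Finset (Finset V)))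
    (h2 : ∀ A ∈ Z, A ⊆ contr C u v)
    (h4 : ∀ A ∈ Z, ∀ B ∈ Z, A ≠ B → Disjoint A B)
    (X : Finset (Finset (Finset V))) (hX : X ⊆ pieces d C u v Z)
    (F : Finset V) (hF : F ∈ nb C u v) (P : Finset (Finset V)) (hP : P ∈ X) (hFP : F ∈ P) :
    F ∈ C3_SX X := by
  unfold C3_SX
  rw [Finset.mem_filter]
  refine ⟨Finset.mem_univ _, ?_⟩
  have : X.filter (fun P => F ∈ P) = {P} := by
    rw [Finset.eq_singleton_iff_unique_mem]
    refine ⟨Finset.mem_filter.2 ⟨hP, hFP⟩, ?_⟩
    intro Q hQ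
    obtain ⟨hQ1, hQ2⟩ := Finset.mem_filter.1 hQ
    exact C3_piece_unique C h u v huv Z h2 h4 F hF Q P (hX hQ1) (hX hP) hQ2 hFP
  rw [this]; simp

theorem C3_SX_pieces (hd : 3 ≤ d) (H2 : S_PLUS) (C : Finset (Finset V)) (h : IsCycle d C) (u v : V) (huv : u ≠ v)
    (Z : Finset (Finset (Finset V)))
    (h1 : ∀ A ∈ Z, MinCycle d A) (h2 : ∀ A ∈ Z, A ⊆ contr C u v)
    (h3 : ∀ F ∈ contr C u v, ∃ A ∈ Z, F ∈ A)
    (h4 : ∀ A ∈ Z, ∀ B ∈ Z, A ≠ B → Disjoint A B) :
    C = C3_SX (pieces d C u v Z) := by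
  refine C3_cyc_eq C _ h (C3_SX_cycle _ (fun P hP => C3_piece_cycle hd H2 C h u v huv Z h1 h2 P hP)) u v huv ?_
  intro G hb
  constructor
  · intro hG
    have hn := (C3_mem_nb C u v G).2 ⟨hG, hb⟩
    obtain ⟨P, hP, hGP⟩ := C3_piece_exists C h u v huv Z h3 G hn
    exact C3_SX_nb C h u v huv Z h2 h4 _ (Finset.Subset.refl _) G hn P hP hGP
  · intro hG
    unfold C3_SX at hG
    have ho := (Finset.mem_filter.1 hG).2
    have : ((pieces d C u v Z).filter (fun P => G ∈ P)).Nonempty := by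
      rw [← Finset.card_pos]; exact ho.pos
    obtain ⟨P, hP⟩ := this
    obtain ⟨hP1, hP2⟩ := Finset.mem_filter.1 hP
    exact ((C3_mem_nb C u v G).1 (C3_piece_nb C u v huv Z P hP1 G hP2 hb)).1

/-- TARGET 1: every facet of `C` lies in a piece -/
theorem C3_pieces_cover (hd : 3 ≤ d) (H2 : S_PLUS) (C : Finset (Finset V)) (h : IsCycle d C) (u v : V) (huv : u ≠ v)
    (Z : Finset (Finset (Finset V)))
    (h1 : ∀ A ∈ Z, MinCycle d A) (h2 : ∀ A ∈ Z, A ⊆ contr C u v)
    (h3 : ∀ F ∈ contr C u v, ∃ A ∈ Z, F ∈ A)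
    (h4 : ∀ A ∈ Z, ∀ B ∈ Z, A ≠ B → Disjoint A B) :
    ∀ F ∈ C, ∃ P ∈ pieces d C u v Z, F ∈ P := by
  intro F hF
  rw [C3_SX_pieces hd H2 C h u v huv Z h1 h2 h3 h4] at hF
  unfold C3_SX at hF
  have ho := (Finset.mem_filter.1 hF).2
  have : ((pieces d C u v Z).filter (fun P => F ∈ P)).Nonempty := by
    rw [← Finset.card_pos]; exact ho.pos
  obtain ⟨P, hP⟩ := this
  obtain ⟨hP1, hP2⟩ := Finset.mem_filter.1 hP
  exact ⟨P, hP1, hP2⟩

/-- TARGET 2: the pieces are connected -/
theorem C3_pieces_conn (hd : 3 ≤ d) (H2 : S_PLUS) (C : Finset (Finset V)) (h : MinCycle d C) (u v : V) (huv : u ≠ v)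
    (Z : Finset (Finset (Finset V)))
    (h1 : ∀ A ∈ Z, MinCycle d A) (h2 : ∀ A ∈ Z, A ⊆ contr C u v)
    (h3 : ∀ F ∈ contr C u v, ∃ A ∈ Z, F ∈ A)
    (h4 : ∀ A ∈ Z, ∀ B ∈ Z, A ≠ B → Disjoint A B)
    (X : Finset (Finset (Finset V))) (hX : X ⊆ pieces d C u v Z) (hX0 : X.Nonempty)
    (hX1 : X ≠ pieces d C u v Z) :
    ∃ P ∈ X, ∃ Q ∈ pieces d C u v Z, Q ∉ X ∧ ∃ F, F ∈ P ∧ F ∈ Q := by
  by_contra hno
  have hno' : ∀ P ∈ X, ∀ Q ∈ pieces d C u v Z, Q ∉ X → ∀ F, F ∈ P → F ∉ Q := by
    intro P hP Q hQ hQX F hFP hFQ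
    exact hno ⟨P, hP, Q, hQ, hQX, F, hFP, hFQ⟩
  have hcyc : IsCycle d (C3_SX X) :=
    C3_SX_cycle X (fun P hP => C3_piece_cycle hd H2 C h.1 u v huv Z h1 h2 P (hX hP))
  have hsub : C3_SX X ⊆ C := by
    intro F hF
    rw [C3_SX_pieces hd H2 C h.1 u v huv Z h1 h2 h3 h4]
    unfold C3_SX at hF ⊢
    have ho := (Finset.mem_filter.1 hF).2
    rw [Finset.mem_filter]
    refine ⟨Finset.mem_univ _, ?_⟩
    have hne : (X.filter (fun P => F ∈ P)).Nonempty := by
      rw [← Finset.card_pos]; exact ho.pos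
    obtain ⟨P, hP⟩ := hne
    obtain ⟨hP1, hP2⟩ := Finset.mem_filter.1 hP
    have e : (pieces d C u v Z).filter (fun P => F ∈ P) = X.filter (fun P => F ∈ P) := by
      ext Q
      simp only [Finset.mem_filter]
      constructor
      · rintro ⟨hQ1, hQ2⟩
        refine ⟨?_, hQ2⟩
        by_contra hQX
        exact hno' P hP1 Q hQ1 hQX F hP2 hQ2
      · rintro ⟨hQ1, hQ2⟩
        exact ⟨hX hQ1, hQ2⟩
    rw [e]; exact ho
  have hnon : (C3_SX X).Nonempty := by
    obtain ⟨P, hP⟩ := hX0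
    obtain ⟨F, hF, hFP⟩ := C3_piece_has C u v huv Z h1 h2 P (hX hP)
    exact ⟨F, C3_SX_nb C h.1 u v huv Z h2 h4 X hX F hF P hP hFP⟩
  have heq := h.2.2 (C3_SX X) hsub hnon hcyc
  have hex : ∃ Q ∈ pieces d C u v Z, Q ∉ X := by
    by_contra hall
    push Not at hall
    exact hX1 (Finset.Subset.antisymm hX hall)
  obtain ⟨Q, hQ, hQX⟩ := hex
  obtain ⟨F, hF, hFQ⟩ := C3_piece_has C u v huv Z h1 h2 Q hQ
  have hFC : F ∈ C3_SX X := by rw [heq]; exact ((C3_mem_nb C u v F).1 hF).1
  unfold C3_SX at hFC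
  have ho := (Finset.mem_filter.1 hFC).2
  have hne : (X.filter (fun P => F ∈ P)).Nonempty := by
    rw [← Finset.card_pos]; exact ho.pos
  obtain ⟨P, hP⟩ := hne
  obtain ⟨hP1, hP2⟩ := Finset.mem_filter.1 hP
  exact hno' P hP1 Q hQ hQX F hP2 hFQ

theorem t_PCS (h1 : S_CON) (h2 : S_PLUS) : S_PCS := by
  intro V _ _ d hd C hC u v huv Z hZ
  obtain ⟨z1, z2, z3, z4⟩ := hZ
  refine ⟨C3_pieces_cover hd h2 C hC.1 u v huv Z z1 z2 z3 z4, ?_⟩
  intro X hX hX0 hX1
  obtain ⟨P, hP, Q, hQ, hQX, F, hFP, hFQ⟩ :=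
    C3_pieces_conn hd h2 C hC u v huv Z z1 z2 z3 z4 X hX hX0 hX1
  have hb : u ∈ F ∧ v ∈ F := by
    by_contra hb
    have hn := C3_piece_nb C u v huv Z P (hX hP) F hFP hb
    have := C3_piece_unique C hC.1 u v huv Z z2 z4 F hn P Q (hX hP) hQ hFP hFQ
    exact hQX (this ▸ hP)
  exact ⟨P, hP, Q, hQ, hQX, F, hFP, hFQ, hb.1, hb.2⟩

end Pool.Agent.N525.VR
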