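import Pool.Agent.N525.VR.Stm

set_option autoImplicit false
set_option linter.unusedSectionVars false

/-! The Fogelsanger induction with a start piece. -/

namespace Pool.Agent.N525.VR

variable {V : Type} [Fintype V] [DecidableEq V]

theorem C5_ps_cycle (d : ℕ) (hd : 1 ≤ d) (W : Finset V) (hW : W.card = d + 1) :
    IsCycle d (W.powersetCard d) := by
  constructor
  · intro F hF; exact (Finset.mem_powersetCard.1 hF).2
  · intro t ht
    by_cases htW : t ⊆ W
    · have e : (W.powersetCard d).filter (fun F => t ⊆ F) = (W \ t).image (fun x => W.erase x) := by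
        ext F
        simp only [Finset.mem_filter, Finset.mem_powersetCard, Finset.mem_image,
          Finset.mem_sdiff]
        constructor
        · rintro ⟨⟨hF, hc⟩, hs⟩
          have hcard : (W \ F).card = 1 := by
            rw [Finset.card_sdiff_of_subset hF, hW, hc]; omega
          obtain ⟨x, hx⟩ := Finset.card_eq_one.1 hcard
          have hxW : x ∈ W \ F := by rw [hx]; simp
          obtain ⟨hx1, hx2⟩ := Finset.mem_sdiff.1 hxW
          refine ⟨x, ⟨hx1, fun hxt => hx2 (hs hxt)⟩, ?_⟩
          symm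
          apply Finset.eq_of_subset_of_card_le
          · intro y hy
            exact Finset.mem_erase.2 ⟨fun hh => hx2 (hh ▸ hy), hF hy⟩
          · rw [Finset.card_erase_of_mem hx1, hW, hc]; omega
        · rintro ⟨x, ⟨hx1, hx2⟩, rfl⟩
          refine ⟨⟨Finset.erase_subset _ _, by rw [Finset.card_erase_of_mem hx1, hW]; omega⟩, ?_⟩
          intro y hy
          exact Finset.mem_erase.2 ⟨fun hh => hx2 (hh ▸ hy), htW hy⟩
      rw [e, Finset.card_image_of_injOn, Finset.card_sdiff_of_subset htW, hW]
      · have : d + 1 - t.card = 2 := by omega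
        rw [this]; exact even_two
      · intro x hx y hy hxy
        by_contra hne
        have hx1 := (Finset.mem_sdiff.1 hx).1
        have : x ∈ W.erase y := Finset.mem_erase.2 ⟨hne, hx1⟩
        rw [← show W.erase x = W.erase y from hxy] at this
        simp at this
    · have e : (W.powersetCard d).filter (fun F => t ⊆ F) = ∅ := by
        rw [Finset.filter_eq_empty_iff]
        intro F hF hs
        exact htW (hs.trans (Finset.mem_powersetCard.1 hF).1)
      rw [e]; simp

theorem C5_supp_ps (d : ℕ) (hd : 1 ≤ d) (W : Finset V) (hW : W.card = d + 1) :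
    (W.powersetCard d).biUnion id = W := by
  ext x
  rw [Finset.mem_biUnion]
  constructor
  · rintro ⟨F, hF, hxF⟩
    exact (Finset.mem_powersetCard.1 hF).1 hxF
  · intro hx
    obtain ⟨y, hy, hyx⟩ : ∃ y ∈ W, y ≠ x := by
      obtain ⟨a, ha, b, hb, hab⟩ := Finset.one_lt_card.mp (show 1 < W.card by omega)
      by_cases hax : a = x
      · exact ⟨b, hb, fun hbx => hab (hax.trans hbx.symm)⟩
      · exact ⟨a, ha, hax⟩
    refine ⟨W.erase y, ?_, ?_⟩
    · rw [Finset.mem_powersetCard]
      refine ⟨Finset.erase_subset _ _, ?_⟩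
      rw [Finset.card_erase_of_mem hy, hW]; omega
    · exact Finset.mem_erase.2 ⟨hyx.symm, hx⟩

theorem C5_caseA (d : ℕ) (hd : 3 ≤ d) (R : Set (Finset V) → Finset V → Prop) (hR : RigPred d R)
    (C : Finset (Finset V)) (h : MinCycle d C) (W : Finset V) (hW : W.card = d + 1)
    (hWC : ∀ F, F ⊆ W → F.card = d → F ∈ C) : R (ridges d C) (C.biUnion id) := by
  have hcyc := C5_ps_cycle d (by omega) W hW
  have hsub : W.powersetCard d ⊆ C := by
    intro F hF
    obtain ⟨h1, h2⟩ := Finset.mem_powersetCard.1 hF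
    exact hWC F h1 h2
  have hne : (W.powersetCard d).Nonempty := by
    rw [Finset.powersetCard_nonempty]; omega
  have heq := h.2.2 _ hsub hne hcyc
  rw [← heq, C5_supp_ps d (by omega) W hW]
  refine hR.complete _ W hW ?_
  intro e he hec
  refine ⟨hec, ?_⟩
  have hlt : e.card < W.card := by omega
  obtain ⟨y, hyW, hye⟩ := Finset.exists_mem_notMem_of_card_lt_card hlt
  -- a `d`-subset of `W` containing `e`
  obtain ⟨F, heF, hFW, hFc⟩ := Finset.exists_subsuperset_card_eq he (show e.card ≤ d by omega)
    (show d ≤ W.card by omega)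
  exact ⟨F, Finset.mem_powersetCard.2 ⟨hFW, hFc⟩, heF⟩

theorem C5_mem_pieces (d : ℕ) (C : Finset (Finset V)) (u v : V) (Z : Finset (Finset (Finset V)))
    (P : Finset (Finset V)) : P ∈ pieces d C u v Z ↔ (∃ A ∈ Z, plus d C u v A = P) ∨
      ∃ U ∈ pairs d C u v, (insert u (insert v U)).powersetCard d = P := by
  unfold pieces
  rw [Finset.mem_union, Finset.mem_image, Finset.mem_image]

theorem C5_mem_pairs (d : ℕ) (C : Finset (Finset V)) (u v : V) (U : Finset V) :
    U ∈ pairs d C u v ↔ U.card + 1 = d ∧ u ∉ U ∧ v ∉ U ∧ insert u U ∈ C ∧ insert v U ∈ C := by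
  unfold pairs; simp

theorem C5_mem_lam (d : ℕ) (C : Finset (Finset V)) (u v : V) (Z : Finset (Finset V)) (K : Finset V) :
    K ∈ lam d C u v Z ↔ K.card + 2 = d ∧ u ∉ K ∧ v ∉ K ∧
      Odd ((lift C u v Z).filter (fun F => insert u K ⊆ F)).card := by
  unfold lam; simp

theorem C5_mem_plus (d : ℕ) (C : Finset (Finset V)) (u v : V) (Z : Finset (Finset V))
    (F : Finset V) : F ∈ plus d C u v Z ↔ F ∈ lift C u v Z ∨
      ∃ K ∈ lam d C u v Z, insert u (insert v K) = F := by
  unfold plus added
  rw [Finset.mem_union, Finset.mem_image]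

theorem C5_lift_C (C : Finset (Finset V)) (u v : V) (Z : Finset (Finset V))
    (F : Finset V) (hF : F ∈ lift C u v Z) : F ∈ C ∧ ¬ (u ∈ F ∧ v ∈ F) := by
  unfold lift nb at hF
  rw [Finset.mem_filter, Finset.mem_filter] at hF
  exact hF.1

theorem C5_card (d : ℕ) (C : Finset (Finset V)) (hC : IsCycle d C) (u v : V) (huv : u ≠ v)
    (Z : Finset (Finset (Finset V))) (P : Finset (Finset V)) (hP : P ∈ pieces d C u v Z)
    (F : Finset V) (hF : F ∈ P) : F.card = d := by
  rcases (C5_mem_pieces d C u v Z P).1 hP with ⟨A, hA, rfl⟩ | ⟨U, hU, rfl⟩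
  · rcases (C5_mem_plus d C u v A F).1 hF with h | ⟨K, hK, rfl⟩
    · exact hC.1 F (C5_lift_C C u v A F h).1
    · obtain ⟨h1, h2, h3, _⟩ := (C5_mem_lam d C u v A K).1 hK
      rw [Finset.card_insert_of_notMem (by simp [huv, h2]), Finset.card_insert_of_notMem h3]
      omega
  · exact (Finset.mem_powersetCard.1 hF).2

theorem C5_mem_con (u v : V) (F : Finset V) (x : V) (hx : x ∈ con u v F) : x = u ∨ x ∈ F := by
  unfold con at hx
  split_ifs at hx with h
  · rw [Finset.mem_insert, Finset.mem_erase] at hx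
    rcases hx with hx | hx
    · exact Or.inl hx
    · exact Or.inr hx.2
  · exact Or.inr hx

theorem C5_fib (C : Finset (Finset V)) (u v : V) (G : Finset V) (hG : G ∈ contr C u v) :
    ∃ F ∈ nb C u v, con u v F = G := by
  unfold contr at hG
  rw [Finset.mem_filter] at hG
  obtain ⟨F, hF⟩ := Finset.card_eq_one.1 hG.2
  have hF' : F ∈ (nb C u v).filter (fun F => con u v F = G) := by
    rw [hF]; exact Finset.mem_singleton_self F
  rw [Finset.mem_filter] at hF'
  exact ⟨F, hF'.1, hF'.2⟩

theorem t_FOG (h1 : S_DEC) (h2 : S_CON) (h3 : S_THIN) (h5 : S_PCS) (h6 : S_STEP) : S_FOG := by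
  intro V _ _ d hd R hR C hC u hthin huC
  obtain ⟨n, hn⟩ : ∃ n, n = (C.biUnion id).card := ⟨_, rfl⟩
  induction n using Nat.strong_induction_on generalizing C with
  | _ n ih =>
  by_cases hA : ∃ W : Finset V, W.card = d + 1 ∧ ∀ F, F ⊆ W → F.card = d → F ∈ C
  · obtain ⟨W, hW, hWC⟩ := hA
    exact C5_caseA d hd R hR C hC W hW hWC
  obtain ⟨F, hF, huF⟩ := huC
  have hFc : F.card = d := hC.1.1 F hF
  set t := F.erase u with ht
  have htc : t.card + 1 = d := by
    rw [ht, Finset.card_erase_of_mem huF, hFc]; omega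
  have hut : u ∉ t := by simp [ht]
  have hFt : F ∈ C.filter (fun G => t ⊆ G) :=
    Finset.mem_filter.2 ⟨hF, Finset.erase_subset _ _⟩
  have hcard2 : (C.filter (fun G => t ⊆ G)).card = 2 := by
    have e1 := hC.1.2 t htc
    have e2 := hthin t htc hut
    have e3 := Finset.card_pos.2 ⟨F, hFt⟩
    obtain ⟨r, hr⟩ := e1
    omega
  obtain ⟨F', hF', hne⟩ := Finset.exists_mem_ne (show 1 < (C.filter (fun G => t ⊆ G)).card by omega) F
  have hfilt : ∀ G ∈ C, t ⊆ G → G = F ∨ G = F' := by
    intro G hG htG
    have hsub : ({F, F'} : Finset (Finset V)) ⊆ C.filter (fun G => t ⊆ G) := by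
      intro X hX
      rw [Finset.mem_insert, Finset.mem_singleton] at hX
      rcases hX with rfl | rfl
      · exact hFt
      · exact hF'
    have heq := Finset.eq_of_subset_of_card_le hsub
      (by rw [hcard2, Finset.card_pair hne.symm])
    have : G ∈ ({F, F'} : Finset (Finset V)) := by
      rw [heq]; exact Finset.mem_filter.2 ⟨hG, htG⟩
    rw [Finset.mem_insert, Finset.mem_singleton] at this
    exact this
  obtain ⟨hF'C, htF'⟩ := Finset.mem_filter.1 hF'
  have hF'c : F'.card = d := hC.1.1 F' hF'C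
  obtain ⟨x, hx⟩ : ∃ x, F' \ t = {x} := by
    rw [← Finset.card_eq_one, Finset.card_sdiff_of_subset htF']; omega
  have hx1 : x ∈ F' \ t := by rw [hx]; exact Finset.mem_singleton_self x
  obtain ⟨hxF', hxt⟩ := Finset.mem_sdiff.1 hx1
  have hF'eq : F' = insert x t := by
    symm
    apply Finset.eq_of_subset_of_card_le
    · exact Finset.insert_subset hxF' htF'
    · rw [Finset.card_insert_of_notMem hxt]; omega
  have hxF : x ∉ F := by
    intro hxF
    by_cases hxu : x = u
    · apply hne
      rw [hF'eq, hxu, ht, Finset.insert_erase huF]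
    · exact hxt (Finset.mem_erase.2 ⟨hxu, hxF⟩)
  -- the vertex `v`
  obtain ⟨v, hvF, hvu, hvx⟩ : ∃ v ∈ F, v ≠ u ∧ insert x (F.erase v) ∉ C := by
    by_contra hcon
    push Not at hcon
    apply hA
    refine ⟨insert x F, by rw [Finset.card_insert_of_notMem hxF, hFc], ?_⟩
    intro G hG hGc
    have hcard : (insert x F \ G).card = 1 := by
      rw [Finset.card_sdiff_of_subset hG, Finset.card_insert_of_notMem hxF]; omega
    obtain ⟨y, hy⟩ := Finset.card_eq_one.1 hcard
    have hyW : y ∈ insert x F \ G := by rw [hy]; exact Finset.mem_singleton_self y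
    obtain ⟨hy1, hy2⟩ := Finset.mem_sdiff.1 hyW
    have hGeq : G = (insert x F).erase y := by
      apply Finset.eq_of_subset_of_card_le
      · intro z hz
        exact Finset.mem_erase.2 ⟨fun hh => hy2 (hh ▸ hz), hG hz⟩
      · rw [Finset.card_erase_of_mem hy1, Finset.card_insert_of_notMem hxF]; omega
    rcases Finset.mem_insert.1 hy1 with hyx | hyF
    · rw [hGeq, hyx, Finset.erase_insert hxF]; exact hF
    · have hxy : x ≠ y := fun hh => hxF (hh ▸ hyF)
      rw [hGeq, Finset.erase_insert_of_ne hxy]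
      by_cases hyu : y = u
      · rw [hyu, ← ht, ← hF'eq]; exact hF'C
      · exact hcon y hyF hyu
  have huv : u ≠ v := hvu.symm
  set τ := t.erase v with hτ
  have hvt : v ∈ t := Finset.mem_erase.2 ⟨hvu, hvF⟩
  have hτc : τ.card + 2 = d := by
    rw [hτ, Finset.card_erase_of_mem hvt]; omega
  have huτ : u ∉ τ := fun h => hut (Finset.mem_of_mem_erase h)
  have hvτ : v ∉ τ := by simp [hτ]
  have hFτ : F = insert u (insert v τ) := by
    rw [hτ, Finset.insert_erase hvt, ht, Finset.insert_erase huF]
  have hcon := h2 V d (by omega) C hC.1 u v huv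
  obtain ⟨Z, hZ⟩ := h1 V d (contr C u v) hcon.1
  obtain ⟨hZ1, hZ2, hZ3, hZ4⟩ := id hZ
  -- `u` belongs to the support of every component
  have hsuppu : ∀ A ∈ Z, ∃ G ∈ A, u ∈ G := by
    intro A hA'
    by_contra hno
    push Not at hno
    have hAC : A ⊆ C := by
      intro G hG
      obtain ⟨F1, hF1, hF1G⟩ := C5_fib C u v G (hZ2 A hA' hG)
      have huG := hno G hG
      have hvF1 : v ∉ F1 := by
        intro hv
        apply huG
        rw [← hF1G]
        unfold con
        rw [if_pos hv]
        exact Finset.mem_insert_self _ _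
      have : con u v F1 = F1 := by unfold con; rw [if_neg hvF1]
      rw [this] at hF1G
      rw [← hF1G]
      exact (Finset.mem_filter.1 hF1).1
    have hAeq := hC.2.2 A hAC (hZ1 A hA').2.1 (hZ1 A hA').1
    exact hcon.2 F (hZ2 A hA' (hAeq ▸ hF)) hvF
  have hvC : v ∈ C.biUnion id := Finset.mem_biUnion.2 ⟨F, hF, hvF⟩
  have hsub : ∀ A ∈ Z, A.biUnion id ⊆ (C.biUnion id).erase v := by
    intro A hA' y hy
    rw [Finset.mem_biUnion] at hy
    obtain ⟨G, hG, hyG⟩ := hy
    have hyG' : y ∈ G := hyG
    have hGc := hZ2 A hA' hG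
    rw [Finset.mem_erase]
    refine ⟨fun hyv => hcon.2 G hGc (hyv ▸ hyG'), ?_⟩
    rw [Finset.mem_biUnion]
    obtain ⟨F1, hF1, hF1G⟩ := C5_fib C u v G hGc
    rw [← hF1G] at hyG'
    rcases C5_mem_con u v F1 y hyG' with hyu | hyF1
    · exact ⟨F, hF, hyu ▸ huF⟩
    · exact ⟨F1, (Finset.mem_filter.1 hF1).1, hyF1⟩
  have hRA : ∀ A ∈ Z, R (ridges d A) (A.biUnion id) := by
    intro A hA'
    refine ih _ ?_ A (hZ1 A hA') (h3 V d (by omega) C hC.1 u v huv hthin A (hZ2 A hA'))
      (hsuppu A hA') rfl
    rw [hn]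
    exact lt_of_le_of_lt (Finset.card_le_card (hsub A hA')) (Finset.card_erase_lt_of_mem hvC)
  have hstep := fun A (hA' : A ∈ Z) => h6 V d hd R hR C hC u v huv F hF huF hvF A (hZ1 A hA')
    (hZ2 A hA') (hRA A hA')
  -- all lifted pieces are rigid together with the edge `u v`
  have hR2 : ∀ A ∈ Z, R (insert {u, v} (ridges d C)) ((plus d C u v A).biUnion id) := by
    intro A hA'
    obtain ⟨⟨τ1, hτ1⟩, _, hs⟩ := hstep A hA'
    refine hs (insert {u, v} (ridges d C)) (fun t ht => Set.mem_insert_of_mem _ ht) τ1 hτ1 ∅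
      (Finset.empty_subset _) ?_
    rw [insert_empty_eq]
    exact Set.mem_insert _ _
  -- the start piece
  obtain ⟨A0, hA0, hR0⟩ : ∃ A0 ∈ Z, R (ridges d C) ((plus d C u v A0).biUnion id) := by
    obtain ⟨P, hP, hFP⟩ := (h5 V d hd C hC u v huv Z hZ).1 F hF
    rcases (C5_mem_pieces d C u v Z P).1 hP with ⟨A0, hA0, rfl⟩ | ⟨U, hU, rfl⟩
    · refine ⟨A0, hA0, ?_⟩
      have hτl : τ ∈ lam d C u v A0 := by
        rcases (C5_mem_plus d C u v A0 F).1 hFP with h | ⟨K, hK, hKF⟩
        · exact absurd ⟨huF, hvF⟩ (C5_lift_C C u v A0 F h).2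
        · obtain ⟨hK1, hK2, hK3, _⟩ := (C5_mem_lam d C u v A0 K).1 hK
          have : K = τ := by
            rw [hτ, ht, ← hKF, Finset.erase_insert (by simp [huv, hK2]), Finset.erase_insert hK3]
          rw [← this]; exact hK
      obtain ⟨x0, hx0⟩ := Finset.card_pos.1 (show 0 < τ.card by omega)
      refine (hstep A0 hA0).2.2 (ridges d C) (fun t ht => ht) τ hτl (τ.erase x0)
        (Finset.erase_subset _ _) ⟨?_, F, hF, ?_⟩
      · have e1 : v ∉ τ.erase x0 := fun h => hvτ (Finset.mem_of_mem_erase h)
        have e2 : u ∉ insert v (τ.erase x0) := by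
          rw [Finset.mem_insert, not_or]
          exact ⟨huv, fun h => huτ (Finset.mem_of_mem_erase h)⟩
        rw [Finset.card_insert_of_notMem e2, Finset.card_insert_of_notMem e1,
          Finset.card_erase_of_mem hx0]
        have := Finset.card_pos.2 ⟨x0, hx0⟩
        omega
      · rw [hFτ]
        exact Finset.insert_subset_insert _ (Finset.insert_subset_insert _ (Finset.erase_subset _ _))
    · exfalso
      obtain ⟨hUc, huU, hvU, hUu, hUv⟩ := (C5_mem_pairs d C u v U).1 hU
      obtain ⟨hFs, _⟩ := Finset.mem_powersetCard.1 hFP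
      have htU : t ⊆ insert v U := by
        intro y hy
        have hyF : y ∈ F := Finset.mem_of_mem_erase hy
        have hyu : y ≠ u := fun h => hut (h ▸ hy)
        exact (Finset.mem_insert.1 (hFs hyF)).resolve_left hyu
      rcases hfilt (insert v U) hUv htU with h | h
      · have : u ∈ insert v U := by rw [h]; exact huF
        rcases Finset.mem_insert.1 this with h | h
        · exact huv h
        · exact huU h
      · have hxv : x ≠ v := fun hh => hxF (hh ▸ hvF)
        have hUeq : U = insert x τ := by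
          have e1 : (insert v U).erase v = U := Finset.erase_insert hvU
          rw [← e1, h, hF'eq, Finset.erase_insert_of_ne hxv]
        apply hvx
        have e2 : F.erase v = insert u τ := by
          rw [hτ, ht, Finset.erase_right_comm, Finset.insert_erase]
          exact Finset.mem_erase.2 ⟨huv, huF⟩
        rw [e2, Finset.insert_comm, ← hUeq]
        exact hUu
  -- gluing
  have hcov := h5 V d hd C hC u v huv Z hZ
  set PP := pieces d C u v Z with hPP
  have hA0P : plus d C u v A0 ∈ PP := by
    rw [hPP, C5_mem_pieces]; exact Or.inl ⟨A0, hA0, rfl⟩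
  classical
  have hne' : (PP.powerset.filter (fun X : Finset (Finset (Finset V)) => plus d C u v A0 ∈ X ∧
      R (ridges d C) ((X.biUnion id).biUnion id))).Nonempty := by
    refine ⟨{plus d C u v A0}, ?_⟩
    rw [Finset.mem_filter, Finset.mem_powerset]
    refine ⟨Finset.singleton_subset_iff.2 hA0P, Finset.mem_singleton_self _, ?_⟩
    rw [Finset.singleton_biUnion]
    exact hR0
  obtain ⟨X, hX, hmax⟩ := Finset.exists_max_image _ (fun X => X.card) hne'
  rw [Finset.mem_filter, Finset.mem_powerset] at hX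
  obtain ⟨hXP, hXA, hRX⟩ := hX
  have hXeq : X = PP := by
    by_contra hXne
    obtain ⟨P, hPX, Q, hQ, hQX, F1, hF1P, hF1Q, huF1, hvF1⟩ := hcov.2 X hXP ⟨_, hXA⟩ hXne
    have hF1c : F1.card = d := C5_card d C hC.1 u v huv Z P (hXP hPX) F1 hF1P
    set S := (X.biUnion id).biUnion id with hS
    have hF1S : F1 ⊆ S := by
      intro y hy
      rw [hS, Finset.mem_biUnion]
      exact ⟨F1, Finset.mem_biUnion.2 ⟨P, hPX, hF1P⟩, hy⟩
    have hF1Q' : F1 ⊆ Q.biUnion id := by
      intro y hy
      rw [Finset.mem_biUnion]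
      exact ⟨F1, hF1Q, hy⟩
    have hunion : ((insert Q X).biUnion id).biUnion id = S ∪ Q.biUnion id := by
      ext y
      simp only [hS, Finset.mem_biUnion, Finset.mem_union, Finset.mem_insert, id]
      constructor
      · rintro ⟨F2, ⟨A', hA' | hA', hF2⟩, hy⟩
        · subst hA'; exact Or.inr ⟨F2, hF2, hy⟩
        · exact Or.inl ⟨F2, ⟨A', hA', hF2⟩, hy⟩
      · rintro (⟨F2, ⟨A', hA', hF2⟩, hy⟩ | ⟨F2, hF2, hy⟩)
        · exact ⟨F2, ⟨A', Or.inr hA', hF2⟩, hy⟩
        · exact ⟨F2, ⟨Q, Or.inl rfl, hF2⟩, hy⟩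
    have hnew : R (ridges d C) (S ∪ Q.biUnion id) := by
      rcases (C5_mem_pieces d C u v Z Q).1 hQ with ⟨A, hA', rfl⟩ | ⟨U, hU, rfl⟩
      · exact hR.glue (ridges d C) S _ u v huv (hF1S huF1) (hF1S hvF1) hRX (hR2 A hA')
          (hF1c.symm.le.trans (Finset.card_le_card (Finset.subset_inter hF1S hF1Q')))
      · obtain ⟨hUc, huU, hvU, hUu, hUv⟩ := (C5_mem_pairs d C u v U).1 hU
        have hTc : (insert u (insert v U)).card = d + 1 := by
          rw [Finset.card_insert_of_notMem (by simp [huv, huU]), Finset.card_insert_of_notMem hvU]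
          omega
        rw [C5_supp_ps d (by omega) _ hTc]
        obtain ⟨hF1s, _⟩ := Finset.mem_powersetCard.1 hF1Q
        set τ1 := (F1.erase u).erase v with hτ1
        have hvF1' : v ∈ F1.erase u := Finset.mem_erase.2 ⟨hvu, hvF1⟩
        have hτ1c : τ1.card + 2 = d := by
          rw [hτ1, Finset.card_erase_of_mem hvF1', Finset.card_erase_of_mem huF1]; omega
        have hτ1U : τ1 ⊆ U := by
          intro y hy
          rw [hτ1, Finset.mem_erase, Finset.mem_erase] at hy
          obtain ⟨hyv, hyu, hyF1⟩ := hy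
          have := hF1s hyF1
          rw [Finset.mem_insert, Finset.mem_insert] at this
          exact (this.resolve_left hyu).resolve_left hyv
        have hτ1S : τ1 ⊆ S := fun y hy =>
          hF1S (Finset.mem_of_mem_erase (Finset.mem_of_mem_erase hy))
        obtain ⟨x1, hx1'⟩ : ∃ x1, U \ τ1 = {x1} := by
          rw [← Finset.card_eq_one, Finset.card_sdiff_of_subset hτ1U]; omega
        have hx1m : x1 ∈ U \ τ1 := by rw [hx1']; exact Finset.mem_singleton_self x1
        obtain ⟨hx1U, hx1τ⟩ := Finset.mem_sdiff.1 hx1m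
        have hUeq : U = insert x1 τ1 := by
          symm
          apply Finset.eq_of_subset_of_card_le
          · exact Finset.insert_subset hx1U hτ1U
          · rw [Finset.card_insert_of_notMem hx1τ]; omega
        have hx1S : R (ridges d C) (insert x1 S) := by
          by_cases hx1S : x1 ∈ S
          · rw [Finset.insert_eq_of_mem hx1S]; exact hRX
          · refine hR.attach (ridges d C) S u v x1 τ1 hRX (hF1S huF1) (hF1S hvF1) huv hτ1S ?_ ?_ hx1S
              hτ1c ?_ ?_
            · intro h; exact huU (hτ1U h)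
            · intro h; exact hvU (hτ1U h)
            · rw [← hUeq]
              exact ⟨hUc, insert u U, hUu, Finset.subset_insert _ _⟩
            · intro y hy
              have hsubU : insert x1 (τ1.erase y) ⊆ U := by
                rw [hUeq]; exact Finset.insert_subset_insert _ (Finset.erase_subset _ _)
              have hc1 : (insert x1 (τ1.erase y)).card + 2 = d := by
                rw [Finset.card_insert_of_notMem (fun h => hx1τ (Finset.mem_of_mem_erase h)),
                  Finset.card_erase_of_mem hy]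
                have := Finset.card_pos.2 ⟨y, hy⟩
                omega
              refine ⟨⟨?_, insert u U, hUu, Finset.insert_subset_insert _ hsubU⟩,
                ⟨?_, insert v U, hUv, Finset.insert_subset_insert _ hsubU⟩⟩
              · rw [Finset.card_insert_of_notMem (fun h => huU (hsubU h))]; omega
              · rw [Finset.card_insert_of_notMem (fun h => hvU (hsubU h))]; omega
        have hfin : S ∪ insert u (insert v U) = insert x1 S := by
          ext y
          simp only [Finset.mem_union, Finset.mem_insert, hUeq]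
          constructor
          · rintro (h | h | h | h | h)
            · exact Or.inr h
            · exact Or.inr (h ▸ hF1S huF1)
            · exact Or.inr (h ▸ hF1S hvF1)
            · exact Or.inl h
            · exact Or.inr (hτ1S h)
          · rintro (h | h)
            · exact Or.inr (Or.inr (Or.inr (Or.inl h)))
            · exact Or.inl h
        rw [hfin]
        exact hx1S
    have hmem : insert Q X ∈ PP.powerset.filter (fun X : Finset (Finset (Finset V)) => plus d C u v A0 ∈ X ∧
        R (ridges d C) ((X.biUnion id).biUnion id)) := by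
      rw [Finset.mem_filter, Finset.mem_powerset]
      refine ⟨Finset.insert_subset hQ hXP, Finset.mem_insert_of_mem hXA, ?_⟩
      rw [hunion]; exact hnew
    have h7 := hmax _ hmem
    rw [Finset.card_insert_of_notMem hQX] at h7
    omega
  have hsupp : (X.biUnion id).biUnion id = C.biUnion id := by
    rw [hXeq]
    ext y
    constructor
    · intro hy
      rw [Finset.mem_biUnion] at hy
      obtain ⟨G, hG, hyG⟩ := hy
      rw [Finset.mem_biUnion] at hG
      obtain ⟨P, hP, hGP⟩ := hG
      have hGP' : G ∈ P := hGP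
      have hyG' : y ∈ G := hyG
      rw [Finset.mem_biUnion]
      rcases (C5_mem_pieces d C u v Z P).1 hP with ⟨A, hA', rfl⟩ | ⟨U, hU, rfl⟩
      · rcases (C5_mem_plus d C u v A G).1 hGP' with h | ⟨K, hK, rfl⟩
        · exact ⟨G, (C5_lift_C C u v A G h).1, hyG'⟩
        · obtain ⟨_, _, _, hodd⟩ := (C5_mem_lam d C u v A K).1 hK
          obtain ⟨F2, hF2⟩ := Finset.card_pos.1 hodd.pos
          rw [Finset.mem_filter] at hF2
          rw [Finset.mem_insert, Finset.mem_insert] at hyG'
          rcases hyG' with h | h | h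
          · exact ⟨F, hF, h ▸ huF⟩
          · exact ⟨F, hF, h ▸ hvF⟩
          · exact ⟨F2, (C5_lift_C C u v A F2 hF2.1).1, hF2.2 (Finset.mem_insert_of_mem h)⟩
      · have h8 := (Finset.mem_powersetCard.1 hGP').1 hyG'
        obtain ⟨_, _, _, hUu, hUv⟩ := (C5_mem_pairs d C u v U).1 hU
        rw [Finset.mem_insert, Finset.mem_insert] at h8
        rcases h8 with h | h | h
        · exact ⟨F, hF, h ▸ huF⟩
        · exact ⟨F, hF, h ▸ hvF⟩
        · exact ⟨insert u U, hUu, Finset.mem_insert_of_mem h⟩
    · intro hy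
      rw [Finset.mem_biUnion] at hy
      obtain ⟨G, hG, hyG⟩ := hy
      obtain ⟨P, hP, hGP⟩ := hcov.1 G hG
      rw [Finset.mem_biUnion]
      exact ⟨G, Finset.mem_biUnion.2 ⟨P, hP, hGP⟩, hyG⟩
  rw [← hsupp]
  exact hRX

end Pool.Agent.N525.VR
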