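import Pool.Agent.N525.VR.Stm
import Pool.Agent.Helper611.UMan

set_option autoImplicit false

/-!
Triangulated manifolds are pseudomanifolds, general dimension (helper768, for helper525).
Adapted from `Pool/Agent/Helper585/Wk/Top1b, Top1c, Top1d` (dimension 4).
-/

namespace Pool.Agent.N525.VR
open Pool.Agent.Helper611

/-- the same complex, for the library of helper611; its `realization` is `K.space` -/
def t2Z {n : ℕ} (K : Cx n) : ZBase.Cx (Fin n) := ⟨K.faces, K.empty_mem, K.down⟩

/-- local acyclicity -/
def T2LAcy {n : ℕ} (K : Cx n) (D : ℕ) : Prop :=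
  ∀ (τ : Finset (Fin n)) (k : ℕ), τ.Nonempty → k ≤ D → ZBase.Acy (t2Z K) ℤ τ k

/-- facets containing `τ` -/
def T2fac {n : ℕ} (D : ℕ) (K : Cx n) (τ : Finset (Fin n)) : Finset (Finset (Fin n)) :=
  K.faces.filter (fun F => τ ⊆ F ∧ F.card = D + 1)


/-- dimension -/
theorem t2_dim_of_charts {n D : ℕ} (K : Cx n) (h : K.Charts D) :
    ∀ σ ∈ K.faces, σ.card ≤ D + 1 := by
  intro σ hσ
  refine UMan.dim_le (n := D) (t2Z K) (id : EuclideanSpace ℝ (Fin D) → _) Topology.IsEmbedding.id Set.univ isOpen_univ
    (by rw [Set.range_id]) ?_ h σ hσ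
  rintro U _ ⟨a, ha⟩
  exact ⟨a, ha, Set.mem_univ _⟩

/-- local acyclicity -/
theorem t2_lacy_of_charts {n D : ℕ} (K : Cx n) (h : K.Charts D) : T2LAcy K D := by
  intro τ k hτ hk
  exact UMan.acy_E (t2Z K) h τ hτ k hk

/-- purity -/
theorem t2_pure_of_lacy {n D : ℕ} (K : Cx n) (h : T2LAcy K D) (hd : ∀ σ ∈ K.faces, σ.card ≤ D + 1)
    (σ : Finset (Fin n)) (hσ : σ ∈ K.faces) (hne : σ.Nonempty) :
    ∃ F ∈ K.faces, σ ⊆ F ∧ F.card = D + 1 := by
  classical
  have key : ∀ m : ℕ, ∀ s : Finset (Fin n), s ∈ K.faces → s.Nonempty → (D + 1) - s.card = m →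
      ∃ F ∈ K.faces, s ⊆ F ∧ F.card = D + 1 := by
    intro m
    induction m with
    | zero =>
      intro s hs _ h5
      exact ⟨s, hs, subset_rfl, by have := hd s hs; omega⟩
    | succ m ih =>
      intro s hs hsn h5
      have hc4 : s.card ≤ D := by omega
      obtain ⟨b, hb1, hb2⟩ := h s s.card hsn hc4 (Pi.single s 1) (by
        intro t ht
        by_cases hts : t = s
        · subst hts
          exact ⟨hs, subset_rfl, rfl⟩
        · exact absurd (Pi.single_eq_of_ne hts _) ht) (by
        intro ρ hρ
        refine Finset.sum_eq_zero fun x hx => ?_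
        have hx' : x ∉ ρ := Finset.mem_compl.1 hx
        have hne : insert x ρ ≠ s := by
          intro he
          exact hx' (hρ (he ▸ Finset.mem_insert_self x ρ))
        rw [Pi.single_eq_of_ne hne, smul_zero])
      have h1 : ZBase.bd b s = 1 := by
        rw [hb2 s subset_rfl, Pi.single_eq_same]
      have h2 : ∃ x ∈ sᶜ, b (insert x s) ≠ 0 := by
        by_contra hcon
        push Not at hcon
        have : ZBase.bd b s = 0 := Finset.sum_eq_zero fun x hx => by rw [hcon x hx, smul_zero]
        rw [h1] at this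
        exact one_ne_zero this
      obtain ⟨x, hx, hbx⟩ := h2
      obtain ⟨h3, h4, h6⟩ := hb1 _ hbx
      obtain ⟨F, hF, hsF, hF5⟩ := ih (insert x s) h3 (Finset.insert_nonempty x s) (by omega)
      exact ⟨F, hF, (Finset.subset_insert x s).trans hsF, hF5⟩
  exact key _ σ hσ hne rfl


open ZBase in
theorem t2_star_conn_single {n : ℕ} (σ : Finset (Fin n)) (v : Fin n) (hv : v ∉ σ) (f : Fin n → ℤ) :
    ∑ x ∈ σᶜ, f x * (if insert x σ = insert v σ then f v else 0) = f v * f v := by
  rw [Finset.sum_eq_single v]
  · simp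
  · intro x hx hxv
    rw [if_neg, mul_zero]
    intro h
    have h1 : x ∈ insert v σ := h ▸ Finset.mem_insert_self x σ
    rcases Finset.mem_insert.1 h1 with h2 | h2
    · exact hxv h2
    · exact Finset.mem_compl.1 hx h2
  · intro h
    exact absurd (Finset.mem_compl.2 hv) h

theorem t2_star_conn_fac {n D : ℕ} (K : Cx n) {σ F : Finset (Fin n)} :
    F ∈ T2fac D K σ ↔ F ∈ K.faces ∧ σ ⊆ F ∧ F.card = D + 1 := by
  unfold T2fac
  rw [Finset.mem_filter]

open ZBase in
/-- stars of nonempty faces are strongly connected -/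
theorem t2_star_conn {n D : ℕ} (K : Cx n) (h : T2LAcy K D) (hd : ∀ σ ∈ K.faces, σ.card ≤ D + 1)
    (hpure : ∀ σ ∈ K.faces, σ.Nonempty → ∃ F ∈ K.faces, σ ⊆ F ∧ F.card = D + 1)
    (htwo : ∀ t ∈ K.faces, t.card = D → (T2fac D K t).card = 2)
    (τ : Finset (Fin n)) (hτ : τ.Nonempty)
    (Z : Finset (Finset (Fin n))) (hZ : Z ⊆ T2fac D K τ)
    (hZe : ∀ t : Finset (Fin n), t.card = D → τ ⊆ t → Even (Z.filter (fun F => t ⊆ F)).card) :
    Z = ∅ ∨ Z = T2fac D K τ := by
  classical
  have claim : ∀ m : ℕ, ∀ σ ∈ K.faces, τ ⊆ σ → σ.card + m = D + 1 →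
      (∀ F ∈ T2fac D K σ, F ∈ Z) ∨ (∀ F ∈ T2fac D K σ, F ∉ Z) := by
    intro m
    induction m using Nat.strong_induction_on with
    | _ m ih =>
    intro σ hσ hτσ hcard
    rcases Nat.lt_or_ge m 2 with hm | hm
    · rcases Nat.lt_or_ge m 1 with hm0 | hm1
      · -- `card σ = D + 1`
        have hc : σ.card = D + 1 := by omega
        have : ∀ F ∈ T2fac D K σ, F = σ := by
          intro F hF
          rw [t2_star_conn_fac] at hF
          exact (Finset.eq_of_subset_of_card_le hF.2.1 (by omega)).symm
        by_cases hs : σ ∈ Z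
        · left; intro F hF; rw [this F hF]; exact hs
        · right; intro F hF; rw [this F hF]; exact hs
      · -- `card σ = D`
        have hc : σ.card = D := by omega
        have h2 := htwo σ hσ hc
        have he := hZe σ hc hτσ
        have hsub : Z.filter (fun F => σ ⊆ F) ⊆ T2fac D K σ := by
          intro F hF
          rw [Finset.mem_filter] at hF
          have := hZ hF.1
          rw [t2_star_conn_fac] at this ⊢
          exact ⟨this.1, hF.2, this.2.2⟩
        have hle := Finset.card_le_card hsub
        rw [h2] at hle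
        obtain ⟨r, hr⟩ := he
        have : (Z.filter (fun F => σ ⊆ F)).card = 0 ∨ (Z.filter (fun F => σ ⊆ F)).card = 2 := by omega
        rcases this with h0 | h0
        · right
          intro F hF hFZ
          rw [Finset.card_eq_zero] at h0
          have : F ∈ Z.filter (fun F => σ ⊆ F) :=
            Finset.mem_filter.2 ⟨hFZ, ((t2_star_conn_fac K).1 hF).2.1⟩
          rw [h0] at this
          exact absurd this (Finset.notMem_empty F)
        · left
          intro F hF
          have := Finset.eq_of_subset_of_card_le hsub (by omega)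
          rw [← this] at hF
          exact (Finset.mem_filter.1 hF).1
    · by_contra hcon
      push Not at hcon
      obtain ⟨⟨F2, hF2, hF2Z⟩, ⟨F1, hF1, hF1Z⟩⟩ := hcon
      have hσne : σ.Nonempty := hτ.mono hτσ
      -- monotonicity of `fac`
      have hfac : ∀ {a b : Finset (Fin n)}, a ⊆ b → T2fac D K b ⊆ T2fac D K a := by
        intro a b hab F hF
        rw [t2_star_conn_fac] at hF ⊢
        exact ⟨hF.1, hab.trans hF.2.1, hF.2.2⟩
      let T : Finset (Fin n) → Prop := fun ρ => ∃ F ∈ T2fac D K ρ, F ∈ Z
      have hTm : ∀ {a b : Finset (Fin n)}, a ⊆ b → T b → T a := by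
        rintro a b hab ⟨F, hF, hFZ⟩
        exact ⟨F, hfac hab hF, hFZ⟩
      -- for faces with `card σ + 1` elements the type is unambiguous
      have htype : ∀ ρ ∈ K.faces, τ ⊆ ρ → ρ.card = σ.card + 1 → T ρ → ∀ F ∈ T2fac D K ρ, F ∈ Z := by
        intro ρ hρ hτρ hc hT
        rcases ih (m - 1) (by omega) ρ hρ hτρ (by omega) with h1 | h1
        · exact h1
        · obtain ⟨F, hF, hFZ⟩ := hT
          exact absurd hFZ (h1 F hF)
      have hx : ∀ F ∈ T2fac D K σ, ∃ v ∈ F, v ∉ σ := by
        intro F hF
        rw [t2_star_conn_fac] at hF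
        by_contra hcon
        push Not at hcon
        have := Finset.card_le_card (show F ⊆ σ from hcon)
        omega
      obtain ⟨v, hvF, hv⟩ := hx F1 hF1
      obtain ⟨w, hwF, hw⟩ := hx F2 hF2
      have hs1F : insert v σ ⊆ F1 :=
        Finset.insert_subset hvF ((t2_star_conn_fac K).1 hF1).2.1
      have hs2F : insert w σ ⊆ F2 :=
        Finset.insert_subset hwF ((t2_star_conn_fac K).1 hF2).2.1
      have hs1 : insert v σ ∈ K.faces := K.down F1 ((t2_star_conn_fac K).1 hF1).1 _ hs1F
      have hs2 : insert w σ ∈ K.faces := K.down F2 ((t2_star_conn_fac K).1 hF2).1 _ hs2F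
      have hT1 : T (insert v σ) :=
        ⟨F1, (t2_star_conn_fac K).2 ⟨((t2_star_conn_fac K).1 hF1).1, hs1F, ((t2_star_conn_fac K).1 hF1).2.2⟩,
          hF1Z⟩
      have hc2 : (insert w σ).card = σ.card + 1 := Finset.card_insert_of_notMem hw
      have hc1 : (insert v σ).card = σ.card + 1 := Finset.card_insert_of_notMem hv
      have hT2 : ¬ T (insert w σ) := by
        intro hT
        have := htype _ hs2 (hτσ.trans (Finset.subset_insert _ _)) hc2 hT F2
          ((t2_star_conn_fac K).2 ⟨((t2_star_conn_fac K).1 hF2).1, hs2F, ((t2_star_conn_fac K).1 hF2).2.2⟩)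
        exact hF2Z this
      have hne : insert v σ ≠ insert w σ := by
        intro heq
        rw [heq] at hT1
        exact hT2 hT1
      -- the cycle
      let c : Finset (Fin n) → ℤ := fun ρ =>
        (if ρ = insert v σ then sgn v σ else 0) - (if ρ = insert w σ then sgn w σ else 0)
      have hcsupp : ∀ ρ, c ρ ≠ 0 → ρ ∈ K.faces ∧ σ ⊆ ρ ∧ ρ.card = σ.card + 1 := by
        intro ρ hρ
        by_cases e1 : ρ = insert v σ
        · rw [e1]; exact ⟨hs1, Finset.subset_insert _ _, hc1⟩
        · by_cases e2 : ρ = insert w σ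
          · rw [e2]; exact ⟨hs2, Finset.subset_insert _ _, hc2⟩
          · exact absurd (by simp only [c, if_neg e1, if_neg e2, sub_zero]) hρ
      have hcyc : ∀ ρ, σ ⊆ ρ → bd c ρ = 0 := by
        intro ρ hρ
        by_cases hρσ : ρ = σ
        · subst hρσ
          unfold bd
          simp only [c, smul_eq_mul, mul_sub, Finset.sum_sub_distrib]
          rw [t2_star_conn_single ρ v hv (fun x => sgn x ρ), t2_star_conn_single ρ w hw (fun x => sgn x ρ),
            sgn_mul_self, sgn_mul_self, sub_self]
        · unfold bd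
          refine Finset.sum_eq_zero fun x hx => ?_
          have hcx : c (insert x ρ) = 0 := by
            by_contra hcon
            have h3 := (hcsupp _ hcon).2.2
            rw [Finset.card_insert_of_notMem (Finset.mem_compl.1 hx)] at h3
            exact hρσ (Finset.eq_of_subset_of_card_le hρ (by omega)).symm
          rw [hcx, smul_zero]
      obtain ⟨b, hb, hbc⟩ := h σ (σ.card + 1) hσne (by omega) c hcsupp hcyc
      let b2 : Finset (Fin n) → ℤ := fun ρ => if T ρ then b ρ else 0
      have hb2 : ∀ x ∈ σᶜ, bd b2 (insert x σ) = if insert x σ = insert v σ then sgn v σ else 0 := by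
        intro x hx
        have hxσ := Finset.mem_compl.1 hx
        have hcx : (insert x σ).card = σ.card + 1 := Finset.card_insert_of_notMem hxσ
        have hσx : σ ⊆ insert x σ := Finset.subset_insert _ _
        by_cases hf : insert x σ ∈ K.faces
        · have e1 : bd b2 (insert x σ) = if T (insert x σ) then bd b (insert x σ) else 0 := by
            unfold bd
            have hterm : ∀ y ∈ (insert x σ)ᶜ, sgn y (insert x σ) • b2 (insert y (insert x σ)) =
                if T (insert x σ) then sgn y (insert x σ) • b (insert y (insert x σ)) else 0 := by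
              intro y hy
              by_cases hby : b (insert y (insert x σ)) = 0
              · simp only [b2, hby]
                simp
              · have hyf := (hb _ hby).1
                have hiff : T (insert y (insert x σ)) ↔ T (insert x σ) := by
                  constructor
                  · exact hTm (Finset.subset_insert _ _)
                  · intro hT
                    obtain ⟨F, hF, hyF, hF5⟩ := hpure _ hyf (Finset.insert_nonempty _ _)
                    have hFf : F ∈ T2fac D K (insert y (insert x σ)) :=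
                      (t2_star_conn_fac K).2 ⟨hF, hyF, hF5⟩
                    exact ⟨F, hFf, htype _ hf (hτσ.trans hσx) hcx hT F
                      (hfac (Finset.subset_insert _ _) hFf)⟩
                simp only [b2]
                by_cases hT : T (insert x σ)
                · rw [if_pos hT, if_pos (hiff.2 hT)]
                · rw [if_neg hT, if_neg (fun h => hT (hiff.1 h)), smul_zero]
            rw [Finset.sum_congr rfl hterm]
            by_cases hT : T (insert x σ)
            · simp only [if_pos hT]
            · simp only [if_neg hT, Finset.sum_const_zero]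
          rw [e1, hbc _ hσx]
          by_cases ev : insert x σ = insert v σ
          · rw [ev, if_pos hT1, if_pos rfl]
            simp only [c, if_pos, if_neg hne, sub_zero]
          · rw [if_neg ev]
            by_cases hT : T (insert x σ)
            · have ew : insert x σ ≠ insert w σ := fun heq => hT2 (heq ▸ hT)
              rw [if_pos hT]
              simp only [c, if_neg ev, if_neg ew, sub_zero]
            · rw [if_neg hT]
        · have hnv : insert x σ ≠ insert v σ := fun heq => hf (by rw [heq]; exact hs1)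
          rw [if_neg hnv]
          unfold bd
          refine Finset.sum_eq_zero fun y hy => ?_
          have hby : b (insert y (insert x σ)) = 0 := by
            by_contra hcon
            exact hf (K.down _ (hb _ hcon).1 _ (Finset.subset_insert _ _))
          simp only [b2, hby, ite_self, smul_zero]
      have hfin := bd_bd b2 σ
      have e3 : bd (bd b2) σ = ∑ x ∈ σᶜ, sgn x σ * (if insert x σ = insert v σ then sgn v σ else 0) := by
        conv_lhs => unfold bd
        exact Finset.sum_congr rfl fun x hx => by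
          have := hb2 x hx
          unfold bd at this
          rw [this, smul_eq_mul]
      rw [e3, t2_star_conn_single σ v hv (fun x => sgn x σ), sgn_mul_self] at hfin
      exact one_ne_zero hfin
  by_cases hτf : τ ∈ K.faces
  · rcases claim (D + 1 - τ.card) τ hτf subset_rfl (by have := hd τ hτf; omega) with h1 | h1
    · right
      exact Finset.Subset.antisymm hZ h1
    · left
      rw [Finset.eq_empty_iff_forall_notMem]
      intro F hF
      exact h1 F (hZ hF) hF
  · left
    rw [Finset.eq_empty_iff_forall_notMem]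
    intro F hF
    have := (t2_star_conn_fac K).1 (hZ hF)
    exact hτf (K.down F this.1 τ this.2.1)


theorem t2_nonempty_of {n : ℕ} (K : Cx n) (x : Fin n → ℝ) (hx : x ∈ K.space)
    (σ : Finset (Fin n)) (hσ : ∀ v, v ∉ σ → x v = 0) : σ.Nonempty := by
  by_contra h
  rw [Finset.not_nonempty_iff_eq_empty] at h
  subst h
  have h1 := hx.2.1
  have h2 : ∑ v, x v = 0 := Finset.sum_eq_zero (fun v _ => hσ v (Finset.notMem_empty v))
  rw [h2] at h1
  exact zero_ne_one h1

theorem t2_vertex {n : ℕ} (K : Cx n) (F : Finset (Fin n)) (hF : F ∈ K.faces) (v : Fin n)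
    (hv : v ∈ F) : (Pi.single v 1 : Fin n → ℝ) ∈ K.space := by
  refine ⟨?_, ?_, F, hF, ?_⟩
  · intro u
    by_cases h : u = v
    · subst h; simp
    · simp [Pi.single_eq_of_ne h]
  · simp
  · intro u hu
    have : u ≠ v := fun h => hu (h ▸ hv)
    simp [Pi.single_eq_of_ne this]

theorem t_TOP (hS : S_TWO) : S_TOP := by
  classical
  intro n D K hD h hc
  have hdim := t2_dim_of_charts K h
  have hlacy := t2_lacy_of_charts K h
  have hpure := t2_pure_of_lacy K hlacy hdim
  have htwo : ∀ t ∈ K.faces, t.card = D → (T2fac D K t).card = 2 := hS n D K hD h hdim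
  have hstar := t2_star_conn K hlacy hdim hpure htwo
  have hfc : ∀ t : Finset (Fin n), (K.fc (D + 1)).filter (fun F => t ⊆ F) = T2fac D K t := by
    intro t
    ext F
    simp only [Cx.fc, T2fac, Finset.mem_filter]
    tauto
  have hcount : ∀ t : Finset (Fin n), t.card = D →
      ((K.fc (D + 1)).filter (fun F => t ⊆ F)).card = 2 ∨
        ((K.fc (D + 1)).filter (fun F => t ⊆ F)).card = 0 := by
    intro t ht
    by_cases htf : t ∈ K.faces
    · left
      rw [hfc]
      exact htwo t htf ht
    · right
      rw [Finset.card_eq_zero, Finset.eq_empty_iff_forall_notMem]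
      intro F hF
      rw [Finset.mem_filter, Cx.fc, Finset.mem_filter] at hF
      exact htf (K.down F hF.1.1 t hF.2)
  have hne0 : ∃ F ∈ K.faces, F.card = D + 1 := by
    obtain ⟨x⟩ := hc.toNonempty
    obtain ⟨τ, hτ, hτx⟩ := x.2.2.2
    obtain ⟨F, hF, _, h5⟩ := hpure τ hτ (t2_nonempty_of K x.1 x.2 τ hτx)
    exact ⟨F, hF, h5⟩
  refine ⟨?_, ?_, ⟨⟨?_, ?_⟩, ?_, ?_⟩⟩
  · intro σ hσ
    by_cases hne : σ.Nonempty
    · exact hpure σ hσ hne
    · rw [Finset.not_nonempty_iff_eq_empty] at hne
      subst hne
      obtain ⟨x⟩ := hc.toNonempty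
      obtain ⟨τ, hτ, hτx⟩ := x.2.2.2
      obtain ⟨F, hF, _, h5⟩ := hpure τ hτ (t2_nonempty_of K x.1 x.2 τ hτx)
      exact ⟨F, hF, Finset.empty_subset _, h5⟩
  · intro t ht
    rcases hcount t ht with h0 | h0 <;> omega
  · intro F hF
    exact (Finset.mem_filter.1 hF).2
  · intro t ht
    rcases hcount t (by omega) with h0 | h0 <;> rw [h0] <;> decide
  · obtain ⟨F, hF, h5⟩ := hne0
    exact ⟨F, Finset.mem_filter.2 ⟨hF, h5⟩⟩
  · intro Z hZ hZne hZe'
    have hZe : ∀ t : Finset (Fin n), t.card = D → Even (Z.filter (fun F => t ⊆ F)).card :=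
      fun t ht => hZe'.2 t (by omega)
    have hfcd : K.fc (D + 1) = K.faces.filter (fun F => F.card = D + 1) := rfl
    rw [hfcd] at hZ ⊢
    -- all or none of the facets containing a nonempty face
    have hall : ∀ τ : Finset (Fin n), τ.Nonempty →
        Z.filter (fun F => τ ⊆ F) = ∅ ∨ Z.filter (fun F => τ ⊆ F) = T2fac D K τ := by
      intro τ hτ
      apply hstar τ hτ
      · intro F hF
        rw [Finset.mem_filter] at hF
        have h1 := hZ hF.1
        rw [Finset.mem_filter] at h1
        unfold T2fac
        rw [Finset.mem_filter]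
        exact ⟨h1.1, hF.2, h1.2⟩
      · intro t ht hτt
        have : (Z.filter (fun F => τ ⊆ F)).filter (fun F => t ⊆ F) = Z.filter (fun F => t ⊆ F) := by
          ext F
          simp only [Finset.mem_filter]
          constructor
          · rintro ⟨⟨h1, _⟩, h2⟩
            exact ⟨h1, h2⟩
          · rintro ⟨h1, h2⟩
            exact ⟨⟨h1, hτt.trans h2⟩, h2⟩
        rw [this]
        exact hZe t ht
    let C : Finset (Fin n) → Set K.space := fun F => {x | ∀ v, v ∉ F → x.1 v = 0}
    have hCcl : ∀ F, IsClosed (C F) := by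
      intro F
      have : C F = ⋂ v, ⋂ (_ : v ∉ F), {x : K.space | x.1 v = 0} := by
        ext x
        simp [C]
      rw [this]
      apply isClosed_iInter
      intro v
      apply isClosed_iInter
      intro _
      exact isClosed_eq ((continuous_apply v).comp continuous_subtype_val) continuous_const
    have hCne : ∀ F ∈ K.faces, F.card = D + 1 → (C F).Nonempty := by
      intro F hF h5
      obtain ⟨v, hv⟩ := Finset.card_pos.mp (by rw [h5]; omega : 0 < F.card)
      refine ⟨⟨Pi.single v 1, t2_vertex K F hF v hv⟩, ?_⟩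
      intro u hu
      have : u ≠ v := fun h => hu (h ▸ hv)
      simp [Pi.single_eq_of_ne this]
    apply Finset.Subset.antisymm hZ
    intro F2 hF2
    by_contra hF2Z
    obtain ⟨F1, hF1⟩ := hZne
    have hF1' := hZ hF1
    rw [Finset.mem_filter] at hF1' hF2
    let A : Set K.space := ⋃ F ∈ Z, C F
    let B : Set K.space := ⋃ F ∈ (K.faces.filter (fun F => F.card = D + 1)) \ Z, C F
    have hA : IsClosed A := isClosed_biUnion_finset (fun F _ => hCcl F)
    have hB : IsClosed B := isClosed_biUnion_finset (fun F _ => hCcl F)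
    have hcov : (Set.univ : Set K.space) ⊆ A ∪ B := by
      intro x _
      obtain ⟨τ, hτ, hτx⟩ := x.2.2.2
      obtain ⟨F, hF, hτF, h5⟩ := hpure τ hτ (t2_nonempty_of K x.1 x.2 τ hτx)
      have hx : x ∈ C F := fun v hv => hτx v (fun h => hv (hτF h))
      by_cases hFZ : F ∈ Z
      · exact Or.inl (Set.mem_biUnion hFZ hx)
      · refine Or.inr (Set.mem_biUnion (show F ∈ ((K.faces.filter (fun F => F.card = D + 1)) \ Z : Finset _) from ?_) hx)
        rw [Finset.mem_sdiff, Finset.mem_filter]
        exact ⟨⟨hF, h5⟩, hFZ⟩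
    have hAne : ((Set.univ : Set K.space) ∩ A).Nonempty := by
      obtain ⟨x, hx⟩ := hCne F1 hF1'.1 hF1'.2
      exact ⟨x, trivial, Set.mem_biUnion hF1 hx⟩
    have hBne : ((Set.univ : Set K.space) ∩ B).Nonempty := by
      obtain ⟨x, hx⟩ := hCne F2 hF2.1 hF2.2
      refine ⟨x, trivial, Set.mem_biUnion (show F2 ∈ ((K.faces.filter (fun F => F.card = D + 1)) \ Z : Finset _) from ?_) hx⟩
      rw [Finset.mem_sdiff, Finset.mem_filter]
      exact ⟨hF2, hF2Z⟩
    obtain ⟨x, _, hxA, hxB⟩ := isPreconnected_closed_iff.mp
      (isPreconnected_univ (α := K.space)) A B hA hB hcov hAne hBne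
    simp only [A, B, Set.mem_iUnion] at hxA hxB
    obtain ⟨G1, hG1, hx1⟩ := hxA
    obtain ⟨G2, hG2, hx2⟩ := hxB
    rw [Finset.mem_sdiff, Finset.mem_filter] at hG2
    let τ : Finset (Fin n) := Finset.univ.filter (fun v => x.1 v ≠ 0)
    have hτne : τ.Nonempty := by
      apply t2_nonempty_of K x.1 x.2
      intro v hv
      by_contra hne
      exact hv (by simp [τ, hne])
    have hτ1 : τ ⊆ G1 := by
      intro v hv
      by_contra hne
      have := hx1 v hne
      simp only [τ, Finset.mem_filter, Finset.mem_univ, true_and] at hv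
      exact hv this
    have hτ2 : τ ⊆ G2 := by
      intro v hv
      by_contra hne
      have := hx2 v hne
      simp only [τ, Finset.mem_filter, Finset.mem_univ, true_and] at hv
      exact hv this
    rcases hall τ hτne with h0 | h0
    · have : G1 ∈ Z.filter (fun F => τ ⊆ F) := Finset.mem_filter.mpr ⟨hG1, hτ1⟩
      rw [h0] at this
      exact Finset.notMem_empty _ this
    · have : G2 ∈ T2fac D K τ := by
        unfold T2fac
        rw [Finset.mem_filter]
        exact ⟨hG2.1.1, hτ2, hG2.1.2⟩
      rw [← h0, Finset.mem_filter] at this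
      exact hG2.2 this.1


end Pool.Agent.N525.VR
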