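import Pool.Agent.N525.VR.Stm

set_option autoImplicit false

/-! Skew motions and strain. -/

namespace Pool.Agent.N525.VR

open scoped RealInnerProductSpace

/-- affine independence as linear independence -/
theorem r1_li {V : Type} [DecidableEq V] {d : ℕ} {T : Finset V} {p : V → E d} (h : AI T p) {x0 : V}
    (h0 : x0 ∈ T) : LinearIndependent ℝ (fun x : (T.erase x0 : Finset V) => p x - p x0) := by
  rw [Fintype.linearIndependent_iff]
  intro g hg x
  let c : V → ℝ := fun y => if y = x0 then - ∑ z, g z else
    if h : y ∈ T.erase x0 then g ⟨y, h⟩ else 0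
  have c0 : c x0 = - ∑ z, g z := if_pos rfl
  have c1 : ∀ z : (T.erase x0 : Finset V), c z = g z := by
    intro z
    show (if (z : V) = x0 then - ∑ z, g z else if h : (z : V) ∈ T.erase x0 then g ⟨z, h⟩ else 0) = g z
    rw [if_neg (Finset.ne_of_mem_erase z.2), dif_pos z.2]
  have hs : ∑ y ∈ T, c y = 0 := by
    rw [← Finset.add_sum_erase T c h0, c0, ← Finset.sum_coe_sort (T.erase x0) c]
    simp only [c1]
    ring
  have hv : ∑ y ∈ T, c y • p y = 0 := by
    rw [← Finset.add_sum_erase T (fun y => c y • p y) h0, c0,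
      ← Finset.sum_coe_sort (T.erase x0) (fun y => c y • p y)]
    simp only [c1]
    rw [← hg, neg_smul, Finset.sum_smul, neg_add_eq_sub, ← Finset.sum_sub_distrib]
    exact Finset.sum_congr rfl fun z _ => (smul_sub _ _ _).symm
  rw [← c1]
  exact h c hs hv x (Finset.mem_of_mem_erase x.2)

/-- A skew map that vanishes on a hyperplane vanishes. -/
theorem r1_skew {d : ℕ} {A : E d →ₗ[ℝ] E d} (hA : Skew A) (W : Submodule ℝ (E d))
    (hW : ∀ w ∈ W, A w = 0) (hd : d ≤ Module.finrank ℝ W + 1) (y : E d) : A y = 0 := by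
  have h1 : ∀ x, A x ∈ Wᗮ := by
    intro x
    rw [Submodule.mem_orthogonal]
    intro w hw
    have h2 := hA w x
    rw [hW w hw, inner_zero_left] at h2
    linarith
  have h3 : Module.finrank ℝ Wᗮ ≤ 1 := by
    have h4 := Submodule.finrank_add_finrank_orthogonal W
    rw [finrank_euclideanSpace_fin] at h4
    omega
  obtain ⟨v, hv⟩ := finrank_le_one_iff.1 h3
  have h5 : A (v : E d) = 0 := by
    obtain ⟨c, hc⟩ := hv ⟨A v, h1 v⟩
    have h6 : c • (v : E d) = A v := congrArg Subtype.val hc
    have h7 := hA v v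
    rw [← h6, real_inner_smul_left, real_inner_smul_right] at h7
    have h8 : c * ⟪(v : E d), (v : E d)⟫ = 0 := by linarith
    rcases mul_eq_zero.1 h8 with h9 | h9
    · rw [← h6, h9, zero_smul]
    · rw [inner_self_eq_zero.1 h9, map_zero]
  obtain ⟨w, hw, z, hz, rfl⟩ := W.exists_add_mem_mem_orthogonal y
  obtain ⟨c, hc⟩ := hv ⟨z, hz⟩
  have h6 : c • (v : E d) = z := congrArg Subtype.val hc
  rw [map_add, hW w hw, ← h6, map_smul, h5, smul_zero, add_zero]

/-- An infinitesimal isometry that vanishes at `d` affinely independent points vanishes. -/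
theorem t_SK0 : S_SK0 := by
  intro V _ _ d T p hT hd A b hA h y
  rcases T.eq_empty_or_nonempty with rfl | ⟨x0, h0⟩
  · have hd0 : d = 0 := by simpa using hd
    subst hd0
    exact Subsingleton.elim _ _
  have hli := r1_li hT h0
  have hW : ∀ w ∈ Submodule.span ℝ (Set.range fun x : (T.erase x0 : Finset V) => p x - p x0),
      A w = 0 := by
    intro w hw
    have hle : Submodule.span ℝ (Set.range fun x : (T.erase x0 : Finset V) => p x - p x0) ≤
        LinearMap.ker A := by
      rw [Submodule.span_le]
      rintro _ ⟨x, rfl⟩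
      show A (p x - p x0) = 0
      have h1 := h x (Finset.mem_of_mem_erase x.2)
      have h2 := h x0 h0
      rw [map_sub, eq_neg_of_add_eq_zero_left h1, eq_neg_of_add_eq_zero_left h2, sub_self]
    exact hle hw
  have hfr := finrank_span_eq_card hli
  have hcard : Fintype.card (T.erase x0 : Finset V) + 1 = T.card := by
    rw [Fintype.card_coe]
    exact Finset.card_erase_add_one h0
  have hz := r1_skew hA _ hW (by rw [hfr, hcard]; exact hd)
  have h2 := h x0 h0
  rw [hz, zero_add] at h2
  rw [hz, h2, zero_add]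

/-- Motions of `d + 1` affinely independent points that preserve all distances to first order. -/
theorem t_STR : S_STR := by
  intro V _ _ d S p m hS hc h
  have hne : S.Nonempty := by
    rw [← Finset.card_pos]
    omega
  obtain ⟨x0, h0⟩ := hne
  have hli := r1_li hS h0
  have hcard : Fintype.card (S.erase x0 : Finset V) = Module.finrank ℝ (E d) := by
    rw [Fintype.card_coe, finrank_euclideanSpace_fin, Finset.card_erase_of_mem h0, hc]
    rfl
  have hsp := hli.span_eq_top_of_card_eq_finrank' hcard
  let B : Module.Basis (S.erase x0 : Finset V) ℝ (E d) := Module.Basis.mk hli hsp.ge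
  have hB : ∀ x, B x = p x - p x0 := fun x => Module.Basis.mk_apply hli hsp.ge x
  let A : E d →ₗ[ℝ] E d := B.constr ℝ (fun x => m x - m x0)
  have hAB : ∀ x, A (B x) = m x - m x0 := fun x => B.constr_basis ℝ _ x
  have hbas : ∀ x y, ⟪A (B x), B y⟫ + ⟪B x, A (B y)⟫ = 0 := by
    intro x y
    have hx := Finset.mem_of_mem_erase x.2
    have hy := Finset.mem_of_mem_erase y.2
    have e1 := h x hx x0 h0
    have e2 := h y hy x0 h0
    have e3 := h x hx y hy
    have e4 : ⟪(p x - p x0) - (p y - p x0), (m x - m x0) - (m y - m x0)⟫ = 0 := by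
      rw [sub_sub_sub_cancel_right, sub_sub_sub_cancel_right]
      exact e3
    have e5 : ∀ a b c e : E d, ⟪a - b, c - e⟫ = ⟪a, c⟫ - ⟪a, e⟫ - ⟪b, c⟫ + ⟪b, e⟫ := by
      intro a b c e
      rw [inner_sub_left, inner_sub_right, inner_sub_right]
      ring
    rw [e5, e1, e2] at e4
    rw [hAB, hAB, hB, hB, real_inner_comm]
    linarith
  have h1 : ∀ y x, ⟪A x, B y⟫ + ⟪x, A (B y)⟫ = 0 := by
    intro y
    have h2 : ((innerₗ (E d)).flip (B y)).comp A + (innerₗ (E d)).flip (A (B y)) = 0 := by
      refine B.ext fun x => ?_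
      simp only [LinearMap.add_apply, LinearMap.comp_apply, LinearMap.flip_apply, innerₗ_apply_apply,
        LinearMap.zero_apply]
      exact hbas x y
    intro x
    have h3 := LinearMap.congr_fun h2 x
    simpa only [LinearMap.add_apply, LinearMap.comp_apply, LinearMap.flip_apply, innerₗ_apply_apply,
        LinearMap.zero_apply] using h3
  have h2 : Skew A := by
    intro x y
    have h3 : (innerₗ (E d)) (A x) + ((innerₗ (E d)) x).comp A = 0 := by
      refine B.ext fun y => ?_
      simp only [LinearMap.add_apply, LinearMap.comp_apply, innerₗ_apply_apply,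
        LinearMap.zero_apply]
      exact h1 y x
    have h4 := LinearMap.congr_fun h3 y
    simp only [LinearMap.add_apply, LinearMap.comp_apply, innerₗ_apply_apply,
        LinearMap.zero_apply] at h4
    linarith
  refine ⟨A, m x0 - A (p x0), h2, fun x hx => ?_⟩
  by_cases hxx : x = x0
  · subst hxx
    abel
  · have h3 := hAB ⟨x, Finset.mem_erase.2 ⟨hxx, hx⟩⟩
    rw [hB, map_sub] at h3
    have h4 : A (p x) = m x - m x0 + A (p x0) := eq_add_of_sub_eq h3
    rw [h4]
    abel

end Pool.Agent.N525.VR
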