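import Mathlib

set_option autoImplicit false

/-!
# MP_c4f91a_co: volume rigidity of the (d-2)-skeleta of simplicial (d-1)-manifolds

Definitions.
-/

namespace Pool.Agent.N525.VR

open scoped RealInnerProductSpace

/-- Euclidean space `ℝ^d`. -/
abbrev E (d : ℕ) : Type := EuclideanSpace ℝ (Fin d)

/-! ### volumes -/

/-- `(k!)²` times the square of the `k`-dimensional volume of the simplex with the vertices
`q 0, …, q k`: the Gram determinant of the edge vectors `q i - q 0`. -/
noncomputable def D {d k : ℕ} (q : Fin (k + 1) → E d) : ℝ :=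
  (Matrix.gram ℝ fun i : Fin k => q i.succ - q 0).det

/-- half of the derivative of `D` at `q` in the direction `m` (Jacobi's formula) -/
noncomputable def dD {d k : ℕ} (q m : Fin (k + 1) → E d) : ℝ :=
  ∑ i : Fin k, ∑ j : Fin k, (Matrix.gram ℝ fun i : Fin k => q i.succ - q 0).adjugate i j *
    ⟪q i.succ - q 0, m j.succ - m 0⟫

/-! ### infinitesimal and generic rigidity of hypergraphs with volume constraints -/

/-- skew-symmetric linear maps -/
def Skew {d : ℕ} (A : E d →ₗ[ℝ] E d) : Prop := ∀ x y, ⟪A x, y⟫ = - ⟪x, A y⟫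

section Rig
variable {V : Type} [Fintype V] [DecidableEq V] {d : ℕ}

/-- `m` preserves, to first order at `p`, the volumes of all hyperedges `e ∈ H` with `e ⊆ S`
(for all enumerations `f` of `e`) -/
def IsMot (H : Set (Finset V)) (S : Finset V) (p m : V → E d) : Prop :=
  ∀ (k : ℕ) (f : Fin (k + 1) → V), Function.Injective f → Finset.univ.image f ∈ H →
    Finset.univ.image f ⊆ S → dD (p ∘ f) (m ∘ f) = 0

/-- `m` is on `S` the restriction of an infinitesimal isometry -/
def Triv (S : Finset V) (p m : V → E d) : Prop :=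
  ∃ (A : E d →ₗ[ℝ] E d) (b : E d), Skew A ∧ ∀ x ∈ S, m x = A (p x) + b

/-- infinitesimal rigidity at `p` -/
def Rig (H : Set (Finset V)) (S : Finset V) (p : V → E d) : Prop :=
  ∀ m : V → E d, IsMot H S p m → Triv S p m

/-- generic infinitesimal rigidity in `ℝ^d`: infinitesimal rigidity outside the zero set of a nonzero
polynomial with rational coefficients -/
def GR (d : ℕ) (H : Set (Finset V)) (S : Finset V) : Prop :=
  ∃ P : MvPolynomial (V × Fin d) ℚ, P ≠ 0 ∧
    ∀ p : V → E d, MvPolynomial.aeval (fun x : V × Fin d => p x.1 x.2) P ≠ 0 → Rig H S p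

end Rig

/-! ### cycles mod 2 -/

section Fog
variable {V : Type} [Fintype V] [DecidableEq V]

/-- `C` is a set of `d`-element sets and every `(d-1)`-element set lies in an even number of
members of `C` -/
def IsCycle (d : ℕ) (C : Finset (Finset V)) : Prop :=
  (∀ F ∈ C, F.card = d) ∧
    ∀ t : Finset V, t.card + 1 = d → Even (C.filter (fun F => t ⊆ F)).card

/-- minimal nonempty cycles -/
def MinCycle (d : ℕ) (C : Finset (Finset V)) : Prop :=
  IsCycle d C ∧ C.Nonempty ∧ ∀ Z, Z ⊆ C → Z.Nonempty → IsCycle d Z → Z = C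

/-- the ridges: the `(d-1)`-element subsets of the members of `C` -/
def ridges (d : ℕ) (C : Finset (Finset V)) : Set (Finset V) :=
  {t | t.card + 1 = d ∧ ∃ F ∈ C, t ⊆ F}

/-- every `(d-1)`-element set that does not contain `u` lies in at most two members of `C` -/
def Thin (d : ℕ) (C : Finset (Finset V)) (u : V) : Prop :=
  ∀ t : Finset V, t.card + 1 = d → u ∉ t → (C.filter (fun F => t ⊆ F)).card ≤ 2

/-- Abstract properties of generic rigidity in `ℝ^d`; `R H S` means that the hypergraph `H`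
restricted to the vertex set `S` is generically rigid. -/
structure RigPred (d : ℕ) (R : Set (Finset V) → Finset V → Prop) : Prop where
  mono : ∀ (H H' : Set (Finset V)) (S : Finset V), (∀ e ∈ H, e ⊆ S → e ∈ H') → R H S → R H' S
  complete : ∀ (H : Set (Finset V)) (S : Finset V), S.card = d + 1 →
    (∀ e, e ⊆ S → e.card + 1 = d → e ∈ H) → R H S
  glue : ∀ (H : Set (Finset V)) (S S' : Finset V) (u v : V), u ≠ v → u ∈ S → v ∈ S → R H S →
    R (insert {u, v} H) S' → d ≤ (S ∩ S').card → R H (S ∪ S')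
  attach : ∀ (H : Set (Finset V)) (S : Finset V) (u v x : V) (τ : Finset V), R H S → u ∈ S → v ∈ S →
    u ≠ v → τ ⊆ S → u ∉ τ → v ∉ τ → x ∉ S → τ.card + 2 = d → insert x τ ∈ H →
    (∀ y ∈ τ, insert u (insert x (τ.erase y)) ∈ H ∧ insert v (insert x (τ.erase y)) ∈ H) →
    R H (insert x S)
  split : ∀ (H' H : Set (Finset V)) (S : Finset V) (u v : V) (τ σ : Finset V), R H' S → u ∈ S →
    v ∉ S → τ ⊆ S → u ∉ τ → τ.card + 2 = d → insert u τ ∈ H → insert v τ ∈ H →
    (∀ x ∈ τ, ∃ y ∈ S, y ≠ u ∧ y ∉ τ ∧ insert u (insert y (τ.erase x)) ∈ H ∧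
      insert v (insert y (τ.erase x)) ∈ H) →
    σ ⊆ τ → insert u (insert v σ) ∈ H →
    (∀ e ∈ H', e ⊆ S → u ∉ e → e ∈ H) →
    (∀ e ∈ H', e ⊆ S → u ∈ e → e ∈ H ∨ insert v (e.erase u) ∈ H) →
    R H (insert v S)

end Fog

/-! ### simplicial complexes and manifolds -/

/-- A finite abstract simplicial complex with vertices in `Fin n`; the empty set is a face. -/
structure Cx (n : ℕ) where
  faces : Finset (Finset (Fin n))
  empty_mem : ∅ ∈ faces
  down : ∀ σ ∈ faces, ∀ τ, τ ⊆ σ → τ ∈ faces

/-- The geometric realisation of a complex, in barycentric coordinates. -/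
def Cx.space {n : ℕ} (K : Cx n) : Set (Fin n → ℝ) :=
  {x | (∀ v, 0 ≤ x v) ∧ ∑ v, x v = 1 ∧ ∃ σ ∈ K.faces, ∀ v, v ∉ σ → x v = 0}

/-- the faces with `d` vertices -/
def Cx.fc {n : ℕ} (K : Cx n) (d : ℕ) : Finset (Finset (Fin n)) := K.faces.filter (fun F => F.card = d)

/-- every point of the geometric realisation has a Euclidean chart of dimension `D` -/
def Cx.Charts {n : ℕ} (K : Cx n) (D : ℕ) : Prop :=
  ∀ x : K.space, ∃ c : OpenPartialHomeomorph K.space (E D), x ∈ c.source

end Pool.Agent.N525.VR
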