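import Pool.Agent.N525.VR.Defs

set_option autoImplicit false

/-! The Fogelsanger decomposition, for general `d` (compare `Pool/Agent/Helper585/Wk/Rig.lean`, `d = 5`). -/

namespace Pool.Agent.N525.VR

variable {V : Type} [Fintype V] [DecidableEq V]

/-- contraction of `v` to `u` on sets -/
def con (u v : V) (F : Finset V) : Finset V := if v ∈ F then insert u (F.erase v) else F

/-- members of `C` that do not contain both `u` and `v` -/
def nb (C : Finset (Finset V)) (u v : V) : Finset (Finset V) :=
  C.filter (fun F => ¬ (u ∈ F ∧ v ∈ F))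

/-- the contraction of the chain `C` (mod 2) -/
def contr (C : Finset (Finset V)) (u v : V) : Finset (Finset V) :=
  Finset.univ.filter (fun G => ((nb C u v).filter (fun F => con u v F = G)).card = 1)

/-- the members of `C` whose contraction lies in `Z` -/
def lift (C : Finset (Finset V)) (u v : V) (Z : Finset (Finset V)) : Finset (Finset V) :=
  (nb C u v).filter (fun F => con u v F ∈ Z)

/-- the sets `K` such that `u, v, K` is an added simplex -/
def lam (d : ℕ) (C : Finset (Finset V)) (u v : V) (Z : Finset (Finset V)) : Finset (Finset V) :=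
  (Finset.univ : Finset (Finset V)).filter (fun K => K.card + 2 = d ∧ u ∉ K ∧ v ∉ K ∧
    Odd ((lift C u v Z).filter (fun F => insert u K ⊆ F)).card)

/-- the added simplices -/
def added (d : ℕ) (C : Finset (Finset V)) (u v : V) (Z : Finset (Finset V)) : Finset (Finset V) :=
  (lam d C u v Z).image (fun K => insert u (insert v K))

/-- the lifted cycle -/
def plus (d : ℕ) (C : Finset (Finset V)) (u v : V) (Z : Finset (Finset V)) : Finset (Finset V) :=
  lift C u v Z ∪ added d C u v Z

/-- degenerate pairs -/
def pairs (d : ℕ) (C : Finset (Finset V)) (u v : V) : Finset (Finset V) :=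
  (Finset.univ : Finset (Finset V)).filter (fun U => U.card + 1 = d ∧ u ∉ U ∧ v ∉ U ∧
    insert u U ∈ C ∧ insert v U ∈ C)

/-- the family of pieces of the Fogelsanger decomposition -/
def pieces (d : ℕ) (C : Finset (Finset V)) (u v : V) (𝒵 : Finset (Finset (Finset V))) :
    Finset (Finset (Finset V)) :=
  𝒵.image (plus d C u v) ∪
    (pairs d C u v).image (fun U => (insert u (insert v U)).powersetCard d)

/-- a decomposition of the cycle `C` into disjoint minimal cycles -/
def IsDec (d : ℕ) (C : Finset (Finset V)) (Z : Finset (Finset (Finset V))) : Prop :=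
  (∀ A ∈ Z, MinCycle d A) ∧ (∀ A ∈ Z, A ⊆ C) ∧ (∀ F ∈ C, ∃ A ∈ Z, F ∈ A) ∧
    (∀ A ∈ Z, ∀ B ∈ Z, A ≠ B → Disjoint A B)

end Pool.Agent.N525.VR
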