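import Pool.Agent.N525.VR.FogDefs

set_option autoImplicit false

/-! Statements of all the steps. -/

namespace Pool.Agent.N525.VR

open scoped RealInnerProductSpace

/-! ### Part C: combinatorics of cycles mod 2, general `d` -/

def S_DEC : Prop := ∀ (V : Type) [Fintype V] [DecidableEq V] (d : ℕ) (C : Finset (Finset V)),
  IsCycle d C → ∃ Z, IsDec d C Z

def S_CON : Prop := ∀ (V : Type) [Fintype V] [DecidableEq V] (d : ℕ), 2 ≤ d →
  ∀ (C : Finset (Finset V)), IsCycle d C → ∀ u v : V, u ≠ v →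
    IsCycle d (contr C u v) ∧ ∀ F ∈ contr C u v, v ∉ F

/-- subsets of the contraction of a thin cycle are thin -/
def S_THIN : Prop := ∀ (V : Type) [Fintype V] [DecidableEq V] (d : ℕ), 2 ≤ d →
  ∀ (C : Finset (Finset V)), IsCycle d C → ∀ u v : V, u ≠ v → Thin d C u →
    ∀ Z, Z ⊆ contr C u v → Thin d Z u

def S_PLUS : Prop := ∀ (V : Type) [Fintype V] [DecidableEq V] (d : ℕ), 3 ≤ d →
  ∀ (C : Finset (Finset V)), IsCycle d C → ∀ u v : V, u ≠ v → ∀ Z, IsCycle d Z → Z ⊆ contr C u v →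
    IsCycle d (plus d C u v Z) ∧
    ∀ e : Finset V, e.card + 3 = d → u ∉ e → v ∉ e →
      Even ((lam d C u v Z).filter (fun K => e ⊆ K)).card

def S_PCS : Prop := ∀ (V : Type) [Fintype V] [DecidableEq V] (d : ℕ), 3 ≤ d →
  ∀ (C : Finset (Finset V)), MinCycle d C → ∀ u v : V, u ≠ v →
  ∀ Z : Finset (Finset (Finset V)), IsDec d (contr C u v) Z →
    (∀ F ∈ C, ∃ P ∈ pieces d C u v Z, F ∈ P) ∧
    (∀ X : Finset (Finset (Finset V)), X ⊆ pieces d C u v Z → X.Nonempty → X ≠ pieces d C u v Z →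
      ∃ P ∈ X, ∃ Q ∈ pieces d C u v Z, Q ∉ X ∧ ∃ F, F ∈ P ∧ F ∈ Q ∧ u ∈ F ∧ v ∈ F)

/-- one step, by vertex splitting -/
def S_STEP : Prop := ∀ (V : Type) [Fintype V] [DecidableEq V] (d : ℕ), 3 ≤ d →
  ∀ (R : Set (Finset V) → Finset V → Prop), RigPred d R →
  ∀ (C : Finset (Finset V)), MinCycle d C → ∀ u v : V, u ≠ v →
  ∀ F0 ∈ C, u ∈ F0 → v ∈ F0 → ∀ Z, MinCycle d Z → Z ⊆ contr C u v →
    R (ridges d Z) (Z.biUnion id) →
    (lam d C u v Z).Nonempty ∧ (∃ F ∈ Z, u ∈ F) ∧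
    ∀ (H : Set (Finset V)), (∀ t ∈ ridges d C, t ∈ H) →
      ∀ τ ∈ lam d C u v Z, ∀ σ, σ ⊆ τ → insert u (insert v σ) ∈ H →
        R H ((plus d C u v Z).biUnion id)

/-- the main combinatorial theorem -/
def S_FOG : Prop := ∀ (V : Type) [Fintype V] [DecidableEq V] (d : ℕ), 3 ≤ d →
  ∀ (R : Set (Finset V) → Finset V → Prop), RigPred d R →
  ∀ (C : Finset (Finset V)), MinCycle d C → ∀ u : V, Thin d C u → (∃ F ∈ C, u ∈ F) →
    R (ridges d C) (C.biUnion id)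

/-! ### Part R: volumes and infinitesimal rigidity -/

/-- Jacobi's formula -/
def S_DERIV : Prop := ∀ (d k : ℕ) (q : Fin (k + 1) → E d),
  ∃ L : (Fin (k + 1) → E d) →L[ℝ] ℝ, (∀ m, L m = 2 * dD q m) ∧
    HasFDerivAt (fun q' : Fin (k + 1) → E d => D q') L q

/-- the Gram determinant does not depend on the enumeration of the vertices -/
def S_PERM : Prop := ∀ (d k : ℕ) (q : Fin (k + 1) → E d) (π : Equiv.Perm (Fin (k + 1))),
  D (q ∘ π) = D q

/-- trivial motions -/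
def S_TRIV : Prop := ∀ (d k : ℕ) (q : Fin (k + 1) → E d) (A : E d →ₗ[ℝ] E d) (b : E d), Skew A →
  dD q (fun i => A (q i) + b) = 0

/-- orthonormal edge vectors -/
def S_ONB : Prop := ∀ (d k : ℕ) (q m : Fin (k + 1) → E d),
  Orthonormal ℝ (fun i : Fin k => q i.succ - q 0) →
  dD q m = ∑ i : Fin k, ⟪q i.succ - q 0, m i.succ - m 0⟫

/-- regular simplices -/
def S_REG : Prop := ∀ (d k : ℕ) (q m : Fin (k + 1) → E d),
  (∀ i j, i ≠ j → ‖q i - q j‖ ^ 2 = 2) →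
  dD q m = ∑ i, ∑ j, if i < j then ⟪q i - q j, m i - m j⟫ else 0

/-- the vertex `1` tends to the vertex `0` -/
def S_SCALE : Prop := ∀ (d k : ℕ) (q m : Fin (k + 2) → E d) (t : ℝ),
  dD (fun i => if i = 1 then q 0 + t • (q 1 - q 0) else q i) m =
    t * dD q (fun i => if i = 1 then m 1 - m 0 else 0) +
      t ^ 2 * dD q (fun i => if i = 1 then 0 else m i - m 0)

def S_CONT : Prop := ∀ (d k : ℕ),
  Continuous (fun x : (Fin (k + 1) → E d) × (Fin (k + 1) → E d) => dD x.1 x.2)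

/-- `dD` is polynomial in the position -/
def S_POL : Prop := ∀ (V : Type) [Fintype V] [DecidableEq V] (d k : ℕ) (f : Fin (k + 1) → V) (x : V)
  (i : Fin d), ∃ Q : MvPolynomial (V × Fin d) ℚ, ∀ p : V → E d,
    dD (p ∘ f) ((Pi.single x (EuclideanSpace.single i (1 : ℝ)) : V → E d) ∘ f) =
      MvPolynomial.aeval (fun y : V × Fin d => p y.1 y.2) Q

/-- injectivity of a linear map depending polynomially on parameters is generic -/
def S_INJ : Prop := ∀ (σ m n : Type) [Fintype σ] [Fintype m] [Fintype n] [DecidableEq n]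
  (L : (σ → ℝ) → (n → ℝ) →ₗ[ℝ] (m → ℝ)),
  (∀ k i, ∃ Q : MvPolynomial σ ℚ, ∀ p, L p (Pi.single i 1) k = MvPolynomial.aeval p Q) →
  ∀ p : σ → ℝ, (∀ x, L p x = 0 → x = 0) →
    ∃ P : MvPolynomial σ ℚ, P ≠ 0 ∧
      ∀ p' : σ → ℝ, MvPolynomial.aeval p' P ≠ 0 → ∀ x, L p' x = 0 → x = 0

/-- generic position for motions of one vertex -/
def S_ONE : Prop := ∀ (V : Type) [Fintype V] [DecidableEq V] (d : ℕ) (ι : Type) [Fintype ι]
  (k : ι → ℕ) (f : ∀ a, Fin (k a + 1) → V) (x : ι → V) (p0 : V → E d),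
  (∀ z : E d, (∀ a, dD (p0 ∘ f a) ((Pi.single (x a) z : V → E d) ∘ f a) = 0) → z = 0) →
  ∃ P : MvPolynomial (V × Fin d) ℚ, P ≠ 0 ∧
    ∀ p : V → E d, MvPolynomial.aeval (fun y : V × Fin d => p y.1 y.2) P ≠ 0 →
      ∀ z : E d, (∀ a, dD (p ∘ f a) ((Pi.single (x a) z : V → E d) ∘ f a) = 0) → z = 0

/-- affine independence of the points `p x`, `x ∈ T` -/
def AI {V : Type} {d : ℕ} (T : Finset V) (p : V → E d) : Prop :=
  ∀ c : V → ℝ, ∑ x ∈ T, c x = 0 → ∑ x ∈ T, c x • p x = 0 → ∀ x ∈ T, c x = 0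

def S_AIP : Prop := ∀ (V : Type) [Fintype V] [DecidableEq V] (d : ℕ) (T : Finset V),
  T.card ≤ d + 1 → ∃ P : MvPolynomial (V × Fin d) ℚ, P ≠ 0 ∧
    ∀ p : V → E d, MvPolynomial.aeval (fun y : V × Fin d => p y.1 y.2) P ≠ 0 → AI T p

/-- an infinitesimal isometry that vanishes at `d` affinely independent points vanishes -/
def S_SK0 : Prop := ∀ (V : Type) [Fintype V] [DecidableEq V] (d : ℕ) (T : Finset V) (p : V → E d),
  AI T p → d ≤ T.card → ∀ (A : E d →ₗ[ℝ] E d) (b : E d), Skew A → (∀ x ∈ T, A (p x) + b = 0) →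
    ∀ y, A y + b = 0

/-- motions of `d + 1` affinely independent points that preserve all distances to first order -/
def S_STR : Prop := ∀ (V : Type) [Fintype V] [DecidableEq V] (d : ℕ) (S : Finset V) (p m : V → E d),
  AI S p → S.card = d + 1 → (∀ x ∈ S, ∀ y ∈ S, ⟪p x - p y, m x - m y⟫ = 0) → Triv S p m

/-- finitely many nonzero polynomials have a common point where none vanishes -/
def S_NZ : Prop := ∀ (σ : Type) [Fintype σ] (P : MvPolynomial σ ℚ), P ≠ 0 →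
  ∃ p : σ → ℝ, MvPolynomial.aeval p P ≠ 0

/-- infinitesimal rigidity at one position implies generic rigidity -/
def S_GROF : Prop := ∀ (V : Type) [Fintype V] [DecidableEq V] (d : ℕ) (H : Set (Finset V))
  (S : Finset V), d ≤ S.card → ∀ p : V → E d, Rig H S p → GR d H S

def S_COMPLETE : Prop := ∀ (V : Type) [Fintype V] [DecidableEq V] (d : ℕ), 3 ≤ d →
  ∀ (H : Set (Finset V)) (S : Finset V), S.card = d + 1 →
    (∀ e, e ⊆ S → e.card + 1 = d → e ∈ H) → GR d H S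

def S_GLUE : Prop := ∀ (V : Type) [Fintype V] [DecidableEq V] (d : ℕ)
  (H : Set (Finset V)) (S S' : Finset V) (u v : V), u ≠ v → u ∈ S → v ∈ S → GR d H S →
    GR d (insert {u, v} H) S' → d ≤ (S ∩ S').card → GR d H (S ∪ S')

def S_ATTACH : Prop := ∀ (V : Type) [Fintype V] [DecidableEq V] (d : ℕ), 3 ≤ d →
  ∀ (H : Set (Finset V)) (S : Finset V) (u v x : V) (τ : Finset V), GR d H S → u ∈ S → v ∈ S →
    u ≠ v → τ ⊆ S → u ∉ τ → v ∉ τ → x ∉ S → τ.card + 2 = d → insert x τ ∈ H →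
    (∀ y ∈ τ, insert u (insert x (τ.erase y)) ∈ H ∧ insert v (insert x (τ.erase y)) ∈ H) →
    GR d H (insert x S)

def S_SPLIT : Prop := ∀ (V : Type) [Fintype V] [DecidableEq V] (d : ℕ), 3 ≤ d →
  ∀ (H' H : Set (Finset V)) (S : Finset V) (u v : V) (τ σ : Finset V), GR d H' S → u ∈ S →
    v ∉ S → τ ⊆ S → u ∉ τ → τ.card + 2 = d → insert u τ ∈ H → insert v τ ∈ H →
    (∀ x ∈ τ, ∃ y ∈ S, y ≠ u ∧ y ∉ τ ∧ insert u (insert y (τ.erase x)) ∈ H ∧
      insert v (insert y (τ.erase x)) ∈ H) →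
    σ ⊆ τ → insert u (insert v σ) ∈ H →
    (∀ e ∈ H', e ⊆ S → u ∉ e → e ∈ H) →
    (∀ e ∈ H', e ⊆ S → u ∈ e → e ∈ H ∨ insert v (e.erase u) ∈ H) →
    GR d H (insert v S)

/-! ### Part F: from infinitesimal to continuous rigidity -/

/-- isometries preserve volumes -/
def S_DISO : Prop := ∀ (d k : ℕ) (q q' : Fin (k + 1) → E d),
  (∀ i j, ‖q i - q j‖ = ‖q' i - q' j‖) → D q = D q'

/-- configurations with the same distances are congruent -/
def S_CONG : Prop := ∀ (V : Type) [Fintype V] (d : ℕ) (p q : V → E d),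
  (∀ x y, ‖q x - q y‖ = ‖p x - p y‖) → ∃ g : E d ≃ᵢ E d, ∀ x, q x = g (p x)

/-- the closest congruent copy of `q` to `p` -/
def S_GAUGE : Prop := ∀ (V : Type) [Fintype V] (d : ℕ) (p q : V → E d), ∃ g : E d ≃ᵢ E d,
  ∑ x, ‖g (q x) - p x‖ ^ 2 ≤ ∑ x, ‖q x - p x‖ ^ 2 ∧
  ∀ (A : E d →ₗ[ℝ] E d) (b : E d), Skew A → ∑ x, ⟪g (q x) - p x, A (g (q x)) + b⟫ = 0

/-- infinitesimal rigidity implies local rigidity -/
def S_LOCAL : Prop := ∀ (V : Type) [Fintype V] [DecidableEq V] (d : ℕ) (H : Set (Finset V))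
  (p : V → E d), Rig H Finset.univ p → ∃ ε : ℝ, 0 < ε ∧ ∀ q : V → E d, (∀ x, ‖q x - p x‖ < ε) →
    (∀ (k : ℕ) (f : Fin (k + 1) → V), Function.Injective f → Finset.univ.image f ∈ H →
      D (q ∘ f) = D (p ∘ f)) → ∀ x y, ‖q x - q y‖ = ‖p x - p y‖

/-- infinitesimal rigidity implies rigidity under continuous motions -/
def S_PATH : Prop := ∀ (V : Type) [Fintype V] [DecidableEq V] (d : ℕ) (H : Set (Finset V))
  (p : V → E d), Rig H Finset.univ p →
  ∀ P : unitInterval → V → E d, Continuous P → P 0 = p →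
    (∀ (t : unitInterval) (k : ℕ) (f : Fin (k + 1) → V), Function.Injective f →
      Finset.univ.image f ∈ H → D (P t ∘ f) = D (p ∘ f)) →
    ∀ t, ∃ g : E d ≃ᵢ E d, ∀ x, P t x = g (p x)

/-! ### Part T: triangulated manifolds -/

/-- in a triangulated `D`-manifold every face with `D` vertices is in exactly two facets -/
def S_TWO : Prop := ∀ (n D : ℕ) (K : Cx n), 1 ≤ D → K.Charts D → (∀ σ ∈ K.faces, σ.card ≤ D + 1) →
  ∀ t ∈ K.faces, t.card = D → (K.faces.filter (fun F => t ⊆ F ∧ F.card = D + 1)).card = 2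

def S_TOP : Prop := ∀ (n D : ℕ) (K : Cx n), 1 ≤ D → K.Charts D → ConnectedSpace K.space →
  (∀ σ ∈ K.faces, ∃ F ∈ K.faces, σ ⊆ F ∧ F.card = D + 1) ∧
  (∀ t : Finset (Fin n), t.card = D → ((K.fc (D + 1)).filter (fun F => t ⊆ F)).card ≤ 2) ∧
  MinCycle (D + 1) (K.fc (D + 1))

end Pool.Agent.N525.VR
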